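import Pool.Agent.H9.SF.Rec

/-! Definition by cases, iteration along the natural numbers, rank, transitive closure. -/

set_option linter.unusedVariables false

open Ordinal
open scoped ZFSet

namespace SF

variable {K : (V → Prop) → Prop} {R R' : (V → Prop) → (ℕ → V) → Prop}
  {f g h : (V → Prop) → (ℕ → V) → V}

/-! ### definition by cases -/

/-- `x` if `p` is true, `y` otherwise -/
noncomputable def sel (p : Prop) (x y : V) : V := open Classical in if p then x else y

theorem sel_pos {p : Prop} {x y : V} (h : p) : sel p x y = x := by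
  unfold sel
  rw [if_pos h]

theorem sel_neg {p : Prop} {x y : V} (h : ¬ p) : sel p x y = y := by
  unfold sel
  rw [if_neg h]

theorem Tm.sel (hR : Dfb K R) (hf : Tm K f) (hg : Tm K g) :
    Tm K (fun M v => sel (R M v) (f M v) (g M v)) := by
  refine Tm.of_graph (R := fun M v => (R M (fun i => v (i + 1)) ∧ v 0 = f M (fun i => v (i + 1))) ∨
    (¬ R M (fun i => v (i + 1)) ∧ v 0 = g M (fun i => v (i + 1)))) ?_ ?_ ?_
  · intro M k v hv
    by_cases h : R M v
    · rw [sel_pos h]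
      exact hf.1 M k v hv
    · rw [sel_neg h]
      exact hg.1 M k v hv
  · exact ((hR.rn _).and hf.2).or ((hR.rn _).not.and hg.2)
  · intro M k v hv x hx
    simp only [cons_zero, cons_succ]
    by_cases h : R M v
    · rw [sel_pos h]
      constructor
      · rintro (⟨-, h2⟩ | ⟨h2, -⟩)
        · exact h2
        · exact absurd h h2
      · exact fun h2 => Or.inl ⟨h, h2⟩
    · rw [sel_neg h]
      constructor
      · rintro (⟨h2, -⟩ | ⟨-, h2⟩)
        · exact absurd h2 h
        · exact h2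
      · exact fun h2 => Or.inr ⟨h, h2⟩

/-! ### natural numbers as sets -/

/-- the natural number coded by a set -/
noncomputable def nn (x : V) : ℕ :=
  open Classical in if h : ∃ n : ℕ, x = nS n then h.choose else 0

@[simp] theorem nn_nS (n : ℕ) : nn (nS n) = n := by
  have h : ∃ m : ℕ, nS n = nS m := ⟨n, rfl⟩
  unfold nn
  rw [dif_pos h]
  exact (nS_inj.1 h.choose_spec).symm

theorem nn_of_not {x : V} (h : x ∉ om) : nn x = 0 := by
  unfold nn
  rw [dif_neg]
  rintro ⟨n, rfl⟩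
  exact h (mem_om.2 ⟨n, rfl⟩)

theorem nS_mem_om (n : ℕ) : nS n ∈ om := mem_om.2 ⟨n, rfl⟩

theorem nS_mem_nS {m n : ℕ} : nS m ∈ nS n ↔ m < n := by
  rw [Ordinal.toZFSet_mem_toZFSet_iff]
  exact Nat.cast_lt

theorem nS_ne_empty (n : ℕ) : nS (n + 1) ≠ ∅ := by
  rw [← nS_zero]
  intro h
  have := nS_inj.1 h
  omega

theorem nS_eq_insert {n : ℕ} {y : V} : nS (n + 1) = insert y y ↔ y = nS n := by
  rw [nS_succ]
  constructor
  · intro h
    have h1 : y ∈ insert (nS n) (nS n) := by rw [h]; simp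
    have h2 : nS n ∈ insert y y := by rw [← h]; simp
    rw [ZFSet.mem_insert_iff] at h1 h2
    rcases h1 with h1 | h1
    · exact h1
    · rcases h2 with h2 | h2
      · exact h2.symm
      · exact absurd h2 (ZFSet.mem_asymm h1)
  · rintro rfl
    rfl

theorem empty_ne_insert {y z : V} : (∅ : V) ≠ insert y z := by
  intro h
  have h1 : y ∈ (∅ : V) := by rw [h]; simp
  exact ZFSet.notMem_empty _ h1

/-! ### iteration -/

/-- the iterates of `f` with first value `g` -/
noncomputable def it (f g : (V → Prop) → (ℕ → V) → V) (M : V → Prop) (v : ℕ → V) : ℕ → V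
  | 0 => g M v
  | n + 1 => f M (cons (it f g M v n) v)

/-- the `n`-th iterate is a definable function of `n` -/
theorem tm_it (hf : Tm ZFm f) (hg : Tm ZFm g) :
    Tm ZFm (fun M v => it f g M (fun i => v (i + 1)) (nn (v 0))) := by
  refine tm_recu (ext := fun _ v => (v 0).sep fun y => v 0 ∈ om ∧ v 0 = insert y y)
    (Φ := fun M u => sel (u 1 ∈ om ∧ ¬ u 1 = ∅)
      (f M (cons (app (u 0) (⋃₀ (u 1) : ZFSet)) fun i => u (i + 2))) (g M fun i => u (i + 2)))
    ZFSet.rank ?_ ?_ ?_ ?_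
  · exact (Tm.sep (R := fun _ v => v 1 ∈ om ∧ v 1 = insert (v 0) (v 0))
      ((Dfb.mem (Tm.var 1) Tm.om).and (Dfb.eq (Tm.var 1) (Tm.ins (Tm.var 0) (Tm.var 0))))
      (Tm.var 0)).congr fun M k v hv => rfl
  · exact Tm.sel ((Dfb.mem (Tm.var 1) Tm.om).and (Dfb.eq (Tm.var 1) Tm.empty).not)
      (hf.push (Tm.app (Tm.var 0) (Tm.sUnion (Tm.var 1))) _) (hg.rn _)
  · intro M k v hv y hy
    exact ZFSet.rank_lt_of_mem (ZFSet.mem_sep.1 hy).1
  · intro M k v hv
    simp only [cons_zero, cons_succ]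
    by_cases h : v 0 ∈ om
    · obtain ⟨n, hn⟩ := mem_om.1 h
      rw [hn, nn_nS]
      cases n with
      | zero =>
        rw [sel_neg]
        · rfl
        · rintro ⟨-, h2⟩
          exact h2 nS_zero
      | succ n =>
        rw [sel_pos ⟨nS_mem_om _, nS_ne_empty n⟩]
        have h1 : (⋃₀ (nS (n + 1)) : ZFSet) = nS n := by
          rw [nS_succ]
          ext z
          rw [ZFSet.mem_sUnion]
          constructor
          · rintro ⟨y, hy, hz⟩
            rw [ZFSet.mem_insert_iff] at hy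
            rcases hy with rfl | hy
            · exact hz
            · exact (ZFSet.isOrdinal_toZFSet _).mem_trans hz hy
          · intro hz
            exact ⟨nS n, by simp, hz⟩
        rw [h1]
        have h2 : nS n ∈ (nS (n + 1)).sep fun y => nS (n + 1) ∈ om ∧ nS (n + 1) = insert y y := by
          rw [ZFSet.mem_sep]
          exact ⟨nS_mem_nS.2 (by omega), nS_mem_om _, nS_succ n⟩
        rw [app_resS h2, nn_nS]
        rfl
    · rw [sel_neg (fun h2 => h h2.1), nn_of_not h]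
      rfl

/-- the `n`-th iterate, `n` a definable function -/
theorem Tm.it (hf : Tm ZFm f) (hg : Tm ZFm g) (hh : Tm ZFm h) :
    Tm ZFm (fun M v => it f g M v (nn (h M v))) :=
  ((tm_it hf hg).push hh id).congr fun M k v hv => rfl

/-- the union of the iterates -/
noncomputable def itU (f g : (V → Prop) → (ℕ → V) → V) (M : V → Prop) (v : ℕ → V) : V :=
  ⋃₀ (imS om fun x => it f g M v (nn x) : ZFSet)

theorem mem_itU {M : V → Prop} {v : ℕ → V} {y : V} : y ∈ itU f g M v ↔ ∃ n, y ∈ it f g M v n := by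
  unfold itU
  rw [ZFSet.mem_sUnion]
  constructor
  · rintro ⟨_, hz, hy⟩
    obtain ⟨x, hx, rfl⟩ := mem_imS.1 hz
    exact ⟨_, hy⟩
  · rintro ⟨n, hn⟩
    exact ⟨_, mem_imS.2 ⟨nS n, nS_mem_om n, rfl⟩, by rwa [nn_nS]⟩

theorem Tm.itU (hf : Tm ZFm f) (hg : Tm ZFm g) : Tm ZFm (itU f g) :=
  Tm.iUn (g := fun M u => SF.it f g M (fun i => u (i + 1)) (nn (u 0))) Tm.om (tm_it hf hg)

/-! ### the rank and the transitive closure -/

/-- the rank of a set as a set -/
noncomputable def rkS (x : V) : V := x.rank.toZFSet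

theorem mem_rkS {x z : V} : z ∈ rkS x ↔ ∃ y ∈ x, z ∈ rkS y ∨ z = rkS y := by
  unfold rkS
  rw [Ordinal.mem_toZFSet_iff]
  constructor
  · rintro ⟨a, ha, rfl⟩
    obtain ⟨y, hy, h⟩ := ZFSet.lt_rank_iff.1 ha
    refine ⟨y, hy, ?_⟩
    rcases h.lt_or_eq with h | rfl
    · exact Or.inl (Ordinal.toZFSet_mem_toZFSet_iff.2 h)
    · exact Or.inr rfl
  · rintro ⟨y, hy, h | rfl⟩
    · obtain ⟨a, ha, rfl⟩ := Ordinal.mem_toZFSet_iff.1 h
      exact ⟨a, ha.trans (ZFSet.rank_lt_of_mem hy), rfl⟩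
    · exact ⟨_, ZFSet.rank_lt_of_mem hy, rfl⟩

theorem Tm.rkS (hf : Tm ZFm f) : Tm ZFm (fun M v => rkS (f M v)) := by
  refine Tm.at1 (F := fun _ x => SF.rkS x) ?_ hf
  refine tm_recu (ext := fun _ v => v 0)
    (Φ := fun M u => (⋃₀ (imS (u 1) fun y => insert (SF.app (u 0) y) (SF.app (u 0) y)) : ZFSet))
    ZFSet.rank (Tm.var 0) ?_ ?_ ?_
  · exact Tm.iUn (g := fun _ u => insert (SF.app (u 1) (u 0)) (SF.app (u 1) (u 0))) (Tm.var 1)
      (Tm.ins (Tm.app (Tm.var 1) (Tm.var 0)) (Tm.app (Tm.var 1) (Tm.var 0)))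
  · intro M k v hv y hy
    exact ZFSet.rank_lt_of_mem hy
  · intro M k v hv
    simp only [cons_zero, cons_succ]
    ext z
    rw [mem_rkS, ZFSet.mem_sUnion]
    constructor
    · rintro ⟨y, hy, h⟩
      refine ⟨_, mem_imS.2 ⟨y, hy, rfl⟩, ?_⟩
      rw [app_resS hy, ZFSet.mem_insert_iff]
      exact h.symm
    · rintro ⟨_, hw, hz⟩
      obtain ⟨y, hy, rfl⟩ := mem_imS.1 hw
      rw [app_resS hy, ZFSet.mem_insert_iff] at hz
      exact ⟨y, hy, hz.symm⟩

/-- the transitive closure of a set (without the set itself) -/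
noncomputable def tcS (x : V) : V :=
  itU (fun _ v => (⋃₀ (v 0) : ZFSet)) (fun _ v => v 0) (fun _ => True) (fun _ => x)

theorem tcS_self (x : V) : x ⊆ tcS x := fun _ h => mem_itU.2 ⟨0, h⟩

theorem tcS_isTransitive (x : V) : (tcS x).IsTransitive := by
  intro y hy z hz
  obtain ⟨n, hn⟩ := mem_itU.1 hy
  exact mem_itU.2 ⟨n + 1, ZFSet.mem_sUnion.2 ⟨y, hn, hz⟩⟩

theorem tcS_sub {x t : V} (h : x ⊆ t) (ht : t.IsTransitive) : tcS x ⊆ t := by
  intro y hy
  obtain ⟨n, hn⟩ := mem_itU.1 hy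
  clear hy
  induction n generalizing y with
  | zero => exact h hn
  | succ n ih =>
    obtain ⟨z, hz, hy⟩ := ZFSet.mem_sUnion.1 hn
    exact ht z (ih hz) hy

theorem Tm.tcS (hf : Tm ZFm f) : Tm ZFm (fun M v => tcS (f M v)) := by
  refine Tm.at1 (F := fun _ x => SF.tcS x) ?_ hf
  refine (Tm.itU (f := fun _ v => (⋃₀ (v 0) : ZFSet)) (g := fun _ v => v 0)
    (Tm.sUnion (Tm.var 0)) (Tm.var 0)).congr fun M k v hv => ?_
  have h1 : ∀ n, SF.it (fun _ v => (⋃₀ (v 0) : ZFSet)) (fun _ v => v 0) M v n =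
      SF.it (fun _ v => (⋃₀ (v 0) : ZFSet)) (fun _ v => v 0) (fun _ => True) (fun _ => v 0) n := by
    intro n
    induction n with
    | zero => rfl
    | succ n ih =>
      simp only [SF.it, cons_zero]
      rw [ih]
  ext y
  unfold SF.tcS
  rw [mem_itU, mem_itU]
  simp only [h1]

end SF
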