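import Pool.Agent.H7.SF.ElemS

/-! Relativization to definable classes and the reflection theorem in models of `ZFm`. -/

set_option linter.unusedVariables false

open Ordinal Order
open scoped ZFSet

namespace SF

variable {K : (V → Prop) → Prop} {R R' Q : (V → Prop) → (ℕ → V) → Prop}
  {f g h e : (V → Prop) → (ℕ → V) → V}

/-! ### relativization -/

theorem vn_psh_zero (x t : V) : vn 0 (psh x t) = x := by
  unfold vn psh
  rw [snd_pair, sel_neg]
  · exact fst_pair _ _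
  · exact pair_ne_empty _ _

theorem vn_psh_succ (x t : V) (i : ℕ) : vn (i + 1) (psh x t) = vn i t := by
  unfold vn psh
  rw [snd_pair, fst_pair]
  have : dr (i + 1) (ZFSet.pair x (snd t)) = dr i (snd t) := by
    unfold dr
    rw [Function.iterate_succ_apply, snd_pair]
  rw [this]

theorem vn_psh (x t : V) : (fun i => vn i (psh x t)) = cons x fun i => vn i t := by
  funext i
  cases i with
  | zero => exact vn_psh_zero x t
  | succ i => exact vn_psh_succ x t i

theorem Tm.vnn (i : ℕ) (hf : Tm ZFm f) : Tm ZFm (fun M v => SF.vn i (f M v)) :=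
  (Tm.vn (Tm.nS i) hf).congr fun M k v hv => by rw [nn_nS]

/-- The satisfaction of a fixed formula in a definable class is definable; the assignment is coded
by the first variable. -/
theorem Dfb.relz (hQ : Dfb ZFm Q) (φ : Fml) :
    Dfb ZFm (fun M w => Sat (fun x => M x ∧ Q M (cons x fun i => w (i + 1))) φ
      fun i => vn i (w 0)) := by
  induction φ with
  | mem i j => exact Dfb.mem (Tm.vnn i (Tm.var 0)) (Tm.vnn j (Tm.var 0))
  | eq i j => exact Dfb.eq (Tm.vnn i (Tm.var 0)) (Tm.vnn j (Tm.var 0))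
  | prd i => exact Dfb.fls
  | neg φ ih => exact ih.not
  | and φ ψ ih1 ih2 => exact ih1.and ih2
  | ex φ ih =>
    have h1 : Dfb ZFm (fun M w => Q M (cons (w 0) fun i => w (i + 2))) :=
      hQ.push (Tm.var 0) fun i => i + 2
    have h2 := ih.push (Tm.psh (Tm.var 0) (Tm.var 1)) fun i => i + 2
    refine (h1.and h2).ex.congr fun M k w hw => ?_
    simp only [cons_zero, cons_succ]
    constructor
    · rintro ⟨x, hx, hq, hs⟩
      refine ⟨x, ⟨hx, hq⟩, ?_⟩
      rw [vn_psh] at hs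
      exact hs
    · rintro ⟨x, ⟨hx, hq⟩, hs⟩
      refine ⟨x, hx, hq, ?_⟩
      rw [vn_psh]
      exact hs

/-! ### the least ordinal -/

/-- the least ordinal of the model with the property -/
noncomputable def lea (R : (V → Prop) → (ℕ → V) → Prop) (M : V → Prop) (v : ℕ → V) : V :=
  (sInf {α : Ordinal.{0} | M α.toZFSet ∧ R M (cons α.toZFSet v)}).toZFSet

theorem lea_spec {M : V → Prop} {v : ℕ → V} {α : Ordinal.{0}} (h1 : M α.toZFSet)
    (h2 : R M (cons α.toZFSet v)) : ∃ β ≤ α, lea R M v = β.toZFSet ∧ M β.toZFSet ∧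
      R M (cons β.toZFSet v) := by
  have h3 : {α : Ordinal.{0} | M α.toZFSet ∧ R M (cons α.toZFSet v)}.Nonempty := ⟨α, h1, h2⟩
  exact ⟨_, csInf_le' (show α ∈ {α : Ordinal.{0} | M α.toZFSet ∧ R M (cons α.toZFSet v)} from
    ⟨h1, h2⟩), rfl, csInf_mem h3⟩

theorem Tm.lea (hR : Dfb ZFm R) : Tm ZFm (lea R) := by
  refine Tm.of_graph (R := fun M v => (IsOrd (v 0) ∧ R M v ∧
      ∀ y ∈ v 0, ¬ R M (cons y fun i => v (i + 1))) ∨
    ((¬ ∃ x, M x ∧ (IsOrd x ∧ R M (cons x fun i => v (i + 1)))) ∧ v 0 = ∅)) ?_ ?_ ?_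
  · intro M k v hv
    by_cases h : ∃ α : Ordinal.{0}, M α.toZFSet ∧ R M (cons α.toZFSet v)
    · obtain ⟨α, h1, h2⟩ := h
      obtain ⟨β, -, h3, h4, -⟩ := lea_spec (R := R) h1 h2
      rw [h3]
      exact h4
    · have h1 : {α : Ordinal.{0} | M α.toZFSet ∧ R M (cons α.toZFSet v)} = ∅ := by
        ext α
        exact ⟨fun h2 => absurd ⟨α, h2⟩ h, fun h2 => h2.elim⟩
      unfold SF.lea
      rw [h1, Ordinal.sInf_empty, Ordinal.toZFSet_zero]
      exact k.mempty
  · have e : ∀ (M : V → Prop) (y : V) (v : ℕ → V),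
        (cons y fun i => v (i + 1)) = fun i => (cons y v) (shr 1 i) := by
      intro M y v
      funext i
      cases i <;> rfl
    refine Dfb.or ((Dfb.isOrd (Tm.var 0)).and (hR.and ?_)) (Dfb.and (Dfb.not ?_)
      (Dfb.eq (Tm.var 0) Tm.empty))
    · refine (Dfb.ball (R := fun M w => ¬ R M fun i => w (shr 1 i)) ktr_zfm (Tm.var 0)
        (hR.rn _).not).congr fun M k v hv => ?_
      simp only [e M]
    · refine (Dfb.ex (R := fun M w => IsOrd (w 0) ∧ R M fun i => w (shr 1 i))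
        ((Dfb.isOrd (Tm.var 0)).and (hR.rn _))).congr fun M k v hv => ?_
      simp only [e M, cons_zero]
  · intro M k v hv x hx
    simp only [cons_zero, cons_succ]
    constructor
    · rintro (⟨⟨α, rfl⟩, h2, h3⟩ | ⟨h1, rfl⟩)
      · obtain ⟨β, hβ, h4, h5, h6⟩ := lea_spec (R := R) hx h2
        rw [h4]
        rcases hβ.lt_or_eq with h7 | h7
        · exact absurd h6 (h3 _ (Ordinal.toZFSet_mem_toZFSet_iff.2 h7))
        · rw [h7]
      · have h2 : {α : Ordinal.{0} | M α.toZFSet ∧ R M (cons α.toZFSet v)} = ∅ := by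
          ext α
          exact ⟨fun h2 => absurd ⟨α.toZFSet, h2.1, ⟨α, rfl⟩, h2.2⟩ h1, fun h2 => h2.elim⟩
        unfold SF.lea
        rw [h2, Ordinal.sInf_empty, Ordinal.toZFSet_zero]
    · rintro rfl
      by_cases h : ∃ α : Ordinal.{0}, M α.toZFSet ∧ R M (cons α.toZFSet v)
      · obtain ⟨α, h1, h2⟩ := h
        obtain ⟨β, hβ, h4, h5, h6⟩ := lea_spec (R := R) h1 h2
        left
        refine ⟨⟨_, rfl⟩, by rw [h4]; exact h6, ?_⟩
        intro y hy h7
        rw [h4] at hy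
        obtain ⟨γ, hγ, rfl⟩ := Ordinal.mem_toZFSet_iff.1 hy
        obtain ⟨δ, hδ, h8, -, -⟩ := lea_spec (R := R) (k.trans _ h5 _ hy) h7
        rw [h4, Ordinal.toZFSet_injective.eq_iff] at h8
        exact absurd (h8 ▸ hδ) (not_le_of_gt hγ)
      · right
        have h1 : {α : Ordinal.{0} | M α.toZFSet ∧ R M (cons α.toZFSet v)} = ∅ := by
          ext α
          exact ⟨fun h2 => absurd ⟨α, h2⟩ h, fun h2 => h2.elim⟩
        refine ⟨?_, ?_⟩
        · rintro ⟨_, h2, ⟨α, rfl⟩, h3⟩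
          exact h ⟨α, h2, h3⟩
        · unfold SF.lea
          rw [h1, Ordinal.sInf_empty, Ordinal.toZFSet_zero]

/-! ### ordinals of a model -/

theorem ZFm.msucc {M : V → Prop} (k : ZFm M) {α : Ordinal.{0}} (h : M α.toZFSet) :
    M (α + 1).toZFSet := by
  rw [Ordinal.toZFSet_add_one]
  exact (Tm.ins (Tm.var 0) (Tm.var 0)).1 M k (fun _ => α.toZFSet) fun _ => h

theorem ZFm.mle {M : V → Prop} (k : ZFm M) {α β : Ordinal.{0}} (h : M β.toZFSet) (hαβ : α ≤ β) :
    M α.toZFSet := by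
  rcases hαβ.lt_or_eq with h1 | rfl
  · exact k.trans _ h _ (Ordinal.toZFSet_mem_toZFSet_iff.2 h1)
  · exact h

/-! ### reflection -/

/-- the class which is the union of the hierarchy -/
def NH (M : V → Prop) (H : Ordinal.{0} → V) (x : V) : Prop := ∃ γ : Ordinal.{0}, M γ.toZFSet ∧ x ∈ H γ

/-- the witnesses of all existential subformulas for assignments in `a` are found in `b` -/
def StA (N : V → Prop) : Fml → V → V → Prop
  | .mem _ _, _, _ => True
  | .eq _ _, _, _ => True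
  | .prd _, _, _ => True
  | .neg φ, a, b => StA N φ a b
  | .and φ ψ, a, b => StA N φ a b ∧ StA N ψ a b
  | .ex φ, a, b => StA N φ a b ∧ ∀ t ∈ PL a, (∃ x, N x ∧ Sat N φ fun i => vn i (psh x t)) →
      ∃ x ∈ b, Sat N φ fun i => vn i (psh x t)

theorem StA.mono {N : V → Prop} {φ : Fml} {a b b' : V} (h : StA N φ a b) (hb : b ⊆ b') :
    StA N φ a b' := by
  induction φ with
  | mem i j => trivial
  | eq i j => trivial
  | prd i => trivial
  | neg φ ih => exact ih h
  | and φ ψ ih1 ih2 => exact ⟨ih1 h.1, ih2 h.2⟩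
  | ex φ ih =>
    refine ⟨ih h.1, fun t ht h1 => ?_⟩
    obtain ⟨x, hx, h2⟩ := h.2 t ht h1
    exact ⟨x, hb hx, h2⟩

/-- a closed level reflects the formula -/
theorem refl_of_StA {N : V → Prop} {φ : Fml} {b : V} (hb : ∀ x ∈ b, N x)
    (h : ∀ (n : ℕ) (v : ℕ → V), (∀ i, v i ∈ b) → ∃ a : V, (∀ i < n, v i ∈ a) ∧ v 0 ∈ a ∧
      StA N φ a b) :
    ∀ v, (∀ i, v i ∈ b) → (Sat N φ v ↔ Sat (· ∈ b) φ v) := by
  induction φ with
  | mem i j => exact fun v hv => Iff.rfl
  | eq i j => exact fun v hv => Iff.rfl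
  | prd i => exact fun v hv => Iff.rfl
  | neg φ ih => exact fun v hv => not_congr (ih h v hv)
  | and φ ψ ih1 ih2 =>
    intro v hv
    refine and_congr (ih1 ?_ v hv) (ih2 ?_ v hv)
    · intro n v hv
      obtain ⟨a, h1, h2, h3⟩ := h n v hv
      exact ⟨a, h1, h2, h3.1⟩
    · intro n v hv
      obtain ⟨a, h1, h2, h3⟩ := h n v hv
      exact ⟨a, h1, h2, h3.2⟩
  | ex φ ih =>
    have ih' := ih (by
      intro n v hv
      obtain ⟨a, h1, h2, h3⟩ := h n v hv
      exact ⟨a, h1, h2, h3.1⟩)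
    intro v hv
    constructor
    · rintro ⟨x, hx, h1⟩
      obtain ⟨a, h2, h2', h3, h4⟩ := h φ.bd v hv
      have hl : ∀ p ∈ (List.range φ.bd).map v, p ∈ a := by
        intro p hp
        obtain ⟨i, hi, rfl⟩ := List.mem_map.1 hp
        exact h2 i (List.mem_range.1 hi)
      have e : ∀ x : V, Sat N φ (cons x v) ↔
          Sat N φ fun i => vn i (psh x (pl (v 0) ((List.range φ.bd).map v))) := by
        intro x
        rw [vn_psh]
        refine satP_congr _ _ _ _ _ fun i hi => ?_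
        cases i with
        | zero => rfl
        | succ i =>
          show v i = vn i _
          rw [vn_pl, List.getD_eq_getElem _ _ (by simp; omega)]
          simp
      obtain ⟨y, hy, h5⟩ := h4 _ (mem_PL.2 ⟨_, _, rfl, h2', hl⟩) ⟨x, hx, (e x).1 h1⟩
      refine ⟨y, hy, ?_⟩
      rw [← e] at h5
      exact (ih' _ (by rintro (_ | i); exacts [hy, hv i])).1 h5
    · rintro ⟨x, hx, h1⟩
      exact ⟨x, hb x hx, (ih' _ (by rintro (_ | i); exacts [hx, hv i])).2 h1⟩

/-- definability of `StA` for a definable class -/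
theorem dfb_StA (hQ : Dfb ZFm Q) (φ : Fml) :
    Dfb ZFm (fun M w => StA (fun x => M x ∧ Q M (cons x fun i => w (i + 2))) φ (w 0) (w 1)) := by
  induction φ with
  | mem i j => exact Dfb.tru
  | eq i j => exact Dfb.tru
  | prd i => exact Dfb.tru
  | neg φ ih => exact ih
  | and φ ψ ih1 ih2 => exact ih1.and ih2
  | ex φ ih =>
    refine ih.and ?_
    have h1 := (Dfb.relz hQ φ).push (Tm.psh (Tm.var 0) (Tm.var 1)) fun i => i + 4
    have h2 : Dfb ZFm (fun M w => Q M (cons (w 0) fun i => w (i + 4))) :=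
      hQ.push (Tm.var 0) fun i => i + 4
    refine (Dfb.ball (R := fun M w => (∃ x, M x ∧ (Q M (cons x fun i => w (i + 3)) ∧
        Sat (fun x => M x ∧ Q M (cons x fun i => w (i + 3))) φ fun i => vn i (psh x (w 0)))) →
      ∃ x ∈ w 2, Sat (fun x => M x ∧ Q M (cons x fun i => w (i + 3))) φ
        fun i => vn i (psh x (w 0))) ktr_zfm (Tm.PL (Tm.var 0)) ?_).congr fun M k w hw => ?_
    · refine Dfb.imp ?_ ?_
      · exact (Dfb.ex (R := fun M w => Q M (cons (w 0) fun i => w (i + 4)) ∧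
          Sat (fun x => M x ∧ Q M (cons x fun i => w (i + 4))) φ fun i => vn i (psh (w 0) (w 1)))
          (h2.and h1)).congr fun M k w hw => Iff.rfl
      · exact (Dfb.bex (R := fun M w =>
          Sat (fun x => M x ∧ Q M (cons x fun i => w (i + 4))) φ fun i => vn i (psh (w 0) (w 1)))
          ktr_zfm (Tm.var 2) h1).congr fun M k w hw => Iff.rfl
    · simp only [cons_zero, cons_succ, and_assoc]

/-- all formulas of the list -/
def StL (N : V → Prop) : List Fml → V → V → Prop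
  | [], _, _ => True
  | φ :: L, a, b => StA N φ a b ∧ StL N L a b

theorem StL.mono {N : V → Prop} {L : List Fml} {a b b' : V} (h : StL N L a b) (hb : b ⊆ b') :
    StL N L a b' := by
  induction L with
  | nil => trivial
  | cons φ L ih => exact ⟨h.1.mono hb, ih h.2⟩

theorem StL.mem {N : V → Prop} {L : List Fml} {a b : V} (h : StL N L a b) {φ : Fml}
    (hφ : φ ∈ L) : StA N φ a b := by
  induction L with
  | nil => simp at hφ
  | cons ψ L ih =>
    rcases List.mem_cons.1 hφ with rfl | hφ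
    · exact h.1
    · exact ih h.2 hφ

theorem dfb_StL (hQ : Dfb ZFm Q) (L : List Fml) :
    Dfb ZFm (fun M w => StL (fun x => M x ∧ Q M (cons x fun i => w (i + 2))) L (w 0) (w 1)) := by
  induction L with
  | nil => exact Dfb.tru
  | cons φ L ih => exact (dfb_StA hQ φ).and ih

/-- The reflection theorem in a model `M` of `ZFm`, for a definable (with parameters `p`)
increasing and continuous hierarchy `H` and finitely many formulas. -/
theorem reflect (hf : Tm ZFm f) {M : V → Prop} (k : ZFm M) {p : ℕ → V} (hp : In M p)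
    {H : Ordinal.{0} → V} (hH : ∀ α : Ordinal.{0}, M α.toZFSet → f M (cons α.toZFSet p) = H α)
    (mono : ∀ α β : Ordinal.{0}, α ≤ β → M β.toZFSet → H α ⊆ H β)
    (cont : ∀ β : Ordinal.{0}, M β.toZFSet → IsSuccLimit β → ∀ x ∈ H β, ∃ α < β, x ∈ H α)
    (L : List Fml) (α : Ordinal.{0}) (hα : M α.toZFSet) :
    ∃ β, α < β ∧ M β.toZFSet ∧ IsSuccLimit β ∧ ∀ φ ∈ L, ∀ v : ℕ → V, (∀ i, v i ∈ H β) →
      (Sat (NH M H) φ v ↔ Sat (· ∈ H β) φ v) := by
  -- the class as a definable class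
  let Q : (V → Prop) → (ℕ → V) → Prop := fun M w => ∃ y, M y ∧
    (IsOrd y ∧ w 0 ∈ f M (cons y fun i => w (i + 1)))
  have hQ : Dfb ZFm Q := by
    have h1 : Tm ZFm (fun M w => f M (cons (w 0) fun i => w (i + 2))) :=
      hf.push (Tm.var 0) fun i => i + 2
    exact (Dfb.ex (R := fun M w => IsOrd (w 0) ∧ w 1 ∈ f M (cons (w 0) fun i => w (i + 2)))
      ((Dfb.isOrd (Tm.var 0)).and (Dfb.mem (Tm.var 1) h1))).congr fun M k w hw => Iff.rfl
  have hHM : ∀ α : Ordinal.{0}, M α.toZFSet → M (H α) := by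
    intro α hα
    rw [← hH α hα]
    exact hf.1 M k _ (hp.cons hα)
  have hN : (fun x => M x ∧ Q M (cons x p)) = NH M H := by
    funext x
    refine propext ⟨?_, ?_⟩
    · rintro ⟨-, _, hy, ⟨γ, rfl⟩, hx⟩
      have hx : x ∈ f M (cons γ.toZFSet p) := hx
      rw [hH γ hy] at hx
      exact ⟨γ, hy, hx⟩
    · rintro ⟨γ, hγ, hx⟩
      refine ⟨k.trans _ (hHM γ hγ) x hx, γ.toZFSet, hγ, ⟨γ, rfl⟩, ?_⟩
      show x ∈ f M (cons γ.toZFSet p)
      rw [hH γ hγ]
      exact hx
  -- witnesses exist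
  have hex1 : ∀ (φ : Fml) (a : V), M a → ∃ γ : Ordinal.{0}, M γ.toZFSet ∧
      ∀ t ∈ PL a, (∃ x, NH M H x ∧ Sat (NH M H) φ fun i => vn i (psh x t)) →
        ∃ x ∈ H γ, Sat (NH M H) φ fun i => vn i (psh x t) := by
    intro φ a ha
    have h1 := (Dfb.relz hQ φ).push (Tm.psh (Tm.var 0) (Tm.var 2)) fun i => i + 3
    have h2 : Tm ZFm (fun M w => f M (cons (w 1) fun i => w (i + 3))) :=
      hf.push (Tm.var 1) fun i => i + 3
    have h3 : Dfb ZFm (fun M w => (∃ x, M x ∧ (Q M (cons x fun i => w (i + 2)) ∧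
        Sat (fun x => M x ∧ Q M (cons x fun i => w (i + 2))) φ fun i => vn i (psh x (w 1)))) →
        IsOrd (w 0) ∧ ∃ x, M x ∧ (x ∈ f M (cons (w 0) fun i => w (i + 2)) ∧
        Sat (fun x => M x ∧ Q M (cons x fun i => w (i + 2))) φ fun i => vn i (psh x (w 1)))) := by
      have h4 : Dfb ZFm (fun M w => Q M (cons (w 0) fun i => w (i + 3))) :=
        hQ.push (Tm.var 0) fun i => i + 3
      exact (h4.and h1).ex.imp ((Dfb.isOrd (Tm.var 0)).and ((Dfb.mem (Tm.var 0) h2).and h1).ex)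
    obtain ⟨ψ, hψ⟩ := id h3
    have hPL : M (PL a) := (Tm.PL (Tm.var 0)).1 M k (fun _ => a) fun _ => ha
    have hψ2 : ∀ t y : V, M t → M y → (Sat M ψ (cons y (cons t p)) ↔
        ((∃ x, NH M H x ∧ Sat (NH M H) φ fun i => vn i (psh x t)) →
        IsOrd y ∧ ∃ x ∈ f M (cons y p), Sat (NH M H) φ fun i => vn i (psh x t))) := by
      intro t y ht hy
      rw [hψ M k _ ((hp.cons ht).cons hy)]
      simp only [cons_zero, cons_succ, hN]
      refine imp_congr ?_ (and_congr_right fun _ => ?_)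
      · refine exists_congr fun x => ?_
        rw [← hN]
        simp only [and_assoc]
      · refine exists_congr fun x => ?_
        constructor
        · rintro ⟨-, h5, h6⟩
          exact ⟨h5, h6⟩
        · rintro ⟨h5, h6⟩
          exact ⟨k.trans _ (hf.1 M k _ (hp.cons hy)) x h5, h5, h6⟩
    obtain ⟨b, hb, hb2⟩ := k.coll ψ p (PL a) hp hPL (by
      intro t ht
      have htM := k.trans _ hPL t ht
      by_cases h5 : ∃ x, NH M H x ∧ Sat (NH M H) φ fun i => vn i (psh x t)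
      · obtain ⟨x, ⟨γ, hγ, hx⟩, h6⟩ := h5
        refine ⟨γ.toZFSet, hγ, (hψ2 t _ htM hγ).2 fun _ => ⟨⟨γ, rfl⟩, x, ?_, h6⟩⟩
        rw [hH γ hγ]
        exact hx
      · exact ⟨∅, k.mempty, (hψ2 t _ htM k.mempty).2 fun h6 => absurd h6 h5⟩)
    -- a bound for the ordinals in `b`
    have hrb : M (b.rank.toZFSet) := (Tm.rkS (Tm.var 0)).1 M k (fun _ => b) fun _ => hb
    refine ⟨b.rank, hrb, fun t ht h5 => ?_⟩
    obtain ⟨y, hy, h6⟩ := hb2 t ht
    obtain ⟨⟨γ, rfl⟩, x, hx, h7⟩ := (hψ2 t y (k.trans _ hPL t ht) (k.trans _ hb y hy)).1 h6 h5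
    have hγM : M γ.toZFSet := k.trans _ hb _ hy
    rw [hH γ hγM] at hx
    have hγb : γ < b.rank := by
      have := ZFSet.rank_lt_of_mem hy
      rwa [Ordinal.rank_toZFSet] at this
    exact ⟨x, mono γ _ hγb.le hrb hx, h7⟩
  have hex2 : ∀ (φ : Fml) (a : V), M a → ∃ γ : Ordinal.{0}, M γ.toZFSet ∧
      StA (NH M H) φ a (H γ) := by
    intro φ
    induction φ with
    | mem i j => exact fun a ha => ⟨0, k.mle hα zero_le, trivial⟩
    | eq i j => exact fun a ha => ⟨0, k.mle hα zero_le, trivial⟩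
    | prd i => exact fun a ha => ⟨0, k.mle hα zero_le, trivial⟩
    | neg φ ih => exact ih
    | and φ ψ ih1 ih2 =>
      intro a ha
      obtain ⟨γ, h1, h2⟩ := ih1 a ha
      obtain ⟨δ, h3, h4⟩ := ih2 a ha
      rcases le_total γ δ with h | h
      · exact ⟨δ, h3, h2.mono (mono _ _ h h3), h4⟩
      · exact ⟨γ, h1, h2, h4.mono (mono _ _ h h1)⟩
    | ex φ ih =>
      intro a ha
      obtain ⟨γ, h1, h2⟩ := ih a ha
      obtain ⟨δ, h3, h4⟩ := hex1 φ a ha
      rcases le_total γ δ with h | h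
      · exact ⟨δ, h3, h2.mono (mono _ _ h h3), h4⟩
      · refine ⟨γ, h1, h2, fun t ht h5 => ?_⟩
        obtain ⟨x, hx, h6⟩ := h4 t ht h5
        exact ⟨x, mono _ _ h h1 hx, h6⟩
  have hex3 : ∀ (L : List Fml) (a : V), M a → ∃ γ : Ordinal.{0}, M γ.toZFSet ∧
      StL (NH M H) L a (H γ) := by
    intro L
    induction L with
    | nil => exact fun a ha => ⟨0, k.mle hα zero_le, trivial⟩
    | cons φ L ih =>
      intro a ha
      obtain ⟨γ, h1, h2⟩ := hex2 φ a ha
      obtain ⟨δ, h3, h4⟩ := ih a ha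
      rcases le_total γ δ with h | h
      · exact ⟨δ, h3, h2.mono (mono _ _ h h3), h4⟩
      · exact ⟨γ, h1, h2, h4.mono (mono _ _ h h1)⟩
  -- the next level
  let R0 : (V → Prop) → (ℕ → V) → Prop := fun M w => w 1 ∈ w 0 ∧
    StL (fun x => M x ∧ Q M (cons x fun i => w (i + 2))) L (f M (cons (w 1) fun i => w (i + 2)))
      (f M (cons (w 0) fun i => w (i + 2)))
  have hR0 : Dfb ZFm R0 := by
    refine (Dfb.mem (Tm.var 1) (Tm.var 0)).and ?_
    have h1 : Tm ZFm (fun M w => f M (cons (w 0) fun i => w (i + 2))) :=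
      hf.push (Tm.var 0) fun i => i + 2
    have h2 : Tm ZFm (fun M w => f M (cons (w 1) fun i => w (i + 2))) :=
      hf.push (Tm.var 1) fun i => i + 2
    refine ((dfb_StL hQ L).comp (fun i => match i with
      | 0 => fun M w => f M (cons (w 1) fun i => w (i + 2))
      | 1 => fun M w => f M (cons (w 0) fun i => w (i + 2))
      | i + 2 => fun _ w => w (i + 2)) ?_).congr fun M k w hw => Iff.rfl
    intro i
    rcases i with _ | _ | i
    · exact h2
    · exact h1
    · exact Tm.var _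
  have hstep : ∀ δ : Ordinal.{0}, M δ.toZFSet → ∃ γ : Ordinal.{0}, δ < γ ∧ M γ.toZFSet ∧
      lea R0 M (cons δ.toZFSet p) = γ.toZFSet ∧ StL (NH M H) L (H δ) (H γ) := by
    intro δ hδ
    have hR : ∀ γ : Ordinal.{0}, M γ.toZFSet → (R0 M (cons γ.toZFSet (cons δ.toZFSet p)) ↔
        δ < γ ∧ StL (NH M H) L (H δ) (H γ)) := by
      intro γ hγ
      show (_ ∈ _ ∧ StL (fun x => M x ∧ Q M (cons x p)) L (f M (cons δ.toZFSet p))
        (f M (cons γ.toZFSet p))) ↔ _
      rw [hH γ hγ, hH δ hδ, hN]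
      exact and_congr_left fun _ => Ordinal.toZFSet_mem_toZFSet_iff
    obtain ⟨γ, h1, h2⟩ := hex3 L (H δ) (hHM δ hδ)
    have h3 : M (max γ (δ + 1)).toZFSet := by
      rcases le_total γ (δ + 1) with h | h
      · rw [max_eq_right h]; exact k.msucc hδ
      · rw [max_eq_left h]; exact h1
    obtain ⟨β, -, h4, h5, h6⟩ := lea_spec (R := R0) (M := M) (v := cons δ.toZFSet p) h3
      ((hR _ h3).2 ⟨lt_of_lt_of_le (lt_add_one δ) (le_max_right _ _),
        h2.mono (mono _ _ (le_max_left _ _) h3)⟩)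
    obtain ⟨h7, h8⟩ := (hR β h5).1 h6
    exact ⟨β, h7, h5, h4, h8⟩
  -- iterate
  have hnx : Tm ZFm (fun M w => lea R0 M (cons (w 0) fun i => w (i + 2))) :=
    (Tm.lea hR0).push (Tm.var 0) fun i => i + 2
  have hitU := (Tm.itU (g := fun _ w => w 0) hnx (Tm.var 0)).1 M k (cons α.toZFSet p) (hp.cons hα)
  obtain ⟨s, hs0, hs⟩ : ∃ s : ℕ → Ordinal.{0}, s 0 = α ∧ ∀ n,
      it (fun M w => lea R0 M (cons (w 0) fun i => w (i + 2))) (fun _ w => w 0) M
        (cons α.toZFSet p) n = (s n).toZFSet ∧ M (s n).toZFSet ∧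
      (s n < s (n + 1) ∧ StL (NH M H) L (H (s n)) (H (s (n + 1)))) := by
    have hc : ∀ δ : Ordinal.{0}, ∃ γ : Ordinal.{0}, M δ.toZFSet → δ < γ ∧ M γ.toZFSet ∧
      lea R0 M (cons δ.toZFSet p) = γ.toZFSet ∧ StL (NH M H) L (H δ) (H γ) := by
      intro δ
      by_cases h : M δ.toZFSet
      · obtain ⟨γ, hγ⟩ := hstep δ h
        exact ⟨γ, fun _ => hγ⟩
      · exact ⟨0, fun h' => absurd h' h⟩
    choose G hG using hc
    have hM : ∀ n, M (G^[n] α).toZFSet := by
      intro n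
      induction n with
      | zero => exact hα
      | succ n ih =>
        rw [Function.iterate_succ_apply']
        exact (hG _ ih).2.1
    refine ⟨fun n => G^[n] α, rfl, fun n => ⟨?_, hM n, ?_, ?_⟩⟩
    · induction n with
      | zero => rfl
      | succ n ih =>
        show lea R0 M (cons (it _ _ M (cons α.toZFSet p) n) p) = _
        rw [ih, (hG _ (hM n)).2.2.1]
        simp only [Function.iterate_succ_apply']
    · show G^[n] α < G^[n + 1] α
      rw [Function.iterate_succ_apply']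
      exact (hG _ (hM n)).1
    · show StL _ _ _ (H (G^[n + 1] α))
      rw [Function.iterate_succ_apply']
      exact (hG _ (hM n)).2.2.2
  let β : Ordinal.{0} := ⨆ n, s n
  have hlt : ∀ n, s n < β := fun n => (hs n).2.2.1.trans_le (Ordinal.le_iSup s (n + 1))
  have hβlt : ∀ γ < β, ∃ n, γ < s n := fun γ hγ => Ordinal.lt_iSup_iff.1 hγ
  have hβ : itU (fun M w => lea R0 M (cons (w 0) fun i => w (i + 2))) (fun _ w => w 0) M
      (cons α.toZFSet p) = β.toZFSet := by
    ext y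
    rw [mem_itU]
    constructor
    · rintro ⟨n, hn⟩
      rw [(hs n).1] at hn
      obtain ⟨γ, hγ, rfl⟩ := Ordinal.mem_toZFSet_iff.1 hn
      exact Ordinal.toZFSet_mem_toZFSet_iff.2 (hγ.trans (hlt n))
    · intro hy
      obtain ⟨γ, hγ, rfl⟩ := Ordinal.mem_toZFSet_iff.1 hy
      obtain ⟨n, hn⟩ := hβlt γ hγ
      refine ⟨n, ?_⟩
      rw [(hs n).1]
      exact Ordinal.toZFSet_mem_toZFSet_iff.2 hn
  have hβM : M β.toZFSet := by
    rw [← hβ]
    exact hitU
  have hlim : IsSuccLimit β := by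
    refine ⟨?_, ?_⟩
    · rw [isMin_iff_eq_bot]
      exact (lt_of_le_of_lt bot_le (hlt 0)).ne'
    · intro γ hγ
      obtain ⟨n, hn⟩ := hβlt γ hγ.lt
      exact hγ.2 hn (hlt n)
  have hin : ∀ x ∈ H β, ∃ n, x ∈ H (s n) := by
    intro x hx
    obtain ⟨γ, hγ, hx'⟩ := cont β hβM hlim x hx
    obtain ⟨n, hn⟩ := hβlt γ hγ
    exact ⟨n, mono _ _ hn.le (hs n).2.1 hx'⟩
  have hsm : StrictMono s := strictMono_nat_of_lt_succ fun n => (hs n).2.2.1
  refine ⟨β, hs0 ▸ hlt 0, hβM, hlim, fun φ hφ => ?_⟩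
  refine refl_of_StA (fun x hx => ⟨β, hβM, hx⟩) fun n v hv => ?_
  have h1 : ∃ m, v 0 ∈ H (s m) ∧ ∀ i < n, v i ∈ H (s m) := by
    induction n with
    | zero =>
      obtain ⟨m, hm⟩ := hin _ (hv 0)
      exact ⟨m, hm, by simp⟩
    | succ n ih =>
      obtain ⟨m, hm, hm2⟩ := ih
      obtain ⟨m', hm'⟩ := hin _ (hv n)
      refine ⟨max m m', mono _ _ (hsm.monotone (le_max_left _ _)) (hs _).2.1 hm, fun i hi => ?_⟩
      rcases Nat.lt_succ_iff_lt_or_eq.1 hi with h | rfl
      · exact mono _ _ (hsm.monotone (le_max_left _ _)) (hs _).2.1 (hm2 i h)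
      · exact mono _ _ (hsm.monotone (le_max_right _ _)) (hs _).2.1 hm'
  obtain ⟨m, hm, hm2⟩ := h1
  exact ⟨H (s m), hm2, hm, ((hs m).2.2.2.mem hφ).mono (mono _ _ (hlt (m + 1)).le hβM)⟩

end SF
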