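import Pool.Agent.H7.SF.Lists
import Pool.Agent.H68.SF.LBas

/-! Satisfaction in set structures is uniformly definable; `Def` and the constructible hierarchy
are definable functions. -/

set_option linter.unusedVariables false

open Ordinal
open scoped ZFSet

namespace SF

variable {K : (V → Prop) → Prop} {R R' : (V → Prop) → (ℕ → V) → Prop}
  {f g h e : (V → Prop) → (ℕ → V) → V}

/-- the assignments with values in `x` -/
noncomputable def PL (x : V) : V := ZFSet.prod x (Lw x)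

theorem mem_PL {x t : V} : t ∈ PL x ↔ ∃ d l, t = pl d l ∧ d ∈ x ∧ ∀ p ∈ l, p ∈ x := by
  unfold PL pl
  rw [ZFSet.mem_prod]
  constructor
  · rintro ⟨d, hd, s, hs, rfl⟩
    obtain ⟨l, hl, rfl⟩ := mem_Lw.1 hs
    exact ⟨d, l, rfl, hd, hl⟩
  · rintro ⟨d, l, rfl, hd, hl⟩
    exact ⟨d, hd, _, mem_Lw.2 ⟨l, hl, rfl⟩, rfl⟩

theorem Tm.PL (hf : Tm ZFm f) : Tm ZFm (fun M v => PL (f M v)) := Tm.prod hf (Tm.Lw hf)

/-- the set of the (assignments with values in `x`) which satisfy the formula with code `c` in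
`(x, ∈, A ∩ x)` -/
noncomputable def sS (x A c : V) : V :=
  (PL x).sep fun t => ∃ φ, c = cd φ ∧ SatP (· ∈ x) (· ∈ A) φ fun i => vn i t

theorem pl_mem_sS {x A d : V} {l : List V} {φ : Fml} (hd : d ∈ x) (hl : ∀ p ∈ l, p ∈ x) :
    pl d l ∈ sS x A (cd φ) ↔ SatP (· ∈ x) (· ∈ A) φ fun i => l.getD i d := by
  unfold sS
  rw [ZFSet.mem_sep]
  have e : (fun i => vn i (pl d l)) = fun i => l.getD i d := by
    funext i
    exact vn_pl i d l
  rw [e]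
  constructor
  · rintro ⟨-, ψ, h1, h2⟩
    rw [cd_inj h1]
    exact h2
  · intro h
    exact ⟨mem_PL.2 ⟨d, l, rfl, hd, hl⟩, φ, rfl, h⟩

theorem mem_sS {x A c t : V} : t ∈ sS x A c ↔ ∃ φ d l, c = cd φ ∧ t = pl d l ∧ d ∈ x ∧
    (∀ p ∈ l, p ∈ x) ∧ SatP (· ∈ x) (· ∈ A) φ fun i => l.getD i d := by
  constructor
  · intro h
    have h' := h
    unfold sS at h'
    rw [ZFSet.mem_sep, mem_PL] at h'
    obtain ⟨⟨d, l, rfl, hd, hl⟩, φ, rfl, -⟩ := h'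
    exact ⟨φ, d, l, rfl, rfl, hd, hl, (pl_mem_sS hd hl).1 h⟩
  · rintro ⟨φ, d, l, rfl, rfl, hd, hl, h⟩
    exact (pl_mem_sS hd hl).2 h

theorem rank_lt_pair_right (x y : V) : y.rank < (ZFSet.pair x y).rank := by
  have h1 : y ∈ ({x, y} : V) := by simp
  have h2 : ({x, y} : V) ∈ ZFSet.pair x y := by simp [ZFSet.pair]
  exact (ZFSet.rank_lt_of_mem h1).trans (ZFSet.rank_lt_of_mem h2)

theorem rank_lt_pair_left (x y : V) : x.rank < (ZFSet.pair x y).rank := by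
  have h1 : x ∈ ({x, y} : V) := by simp
  have h2 : ({x, y} : V) ∈ ZFSet.pair x y := by simp [ZFSet.pair]
  exact (ZFSet.rank_lt_of_mem h1).trans (ZFSet.rank_lt_of_mem h2)

/-- the recursion step for satisfaction: the assignment is `w 0`, the previous values are given by
`w 1`, the code is `w 2`, the structure is `(w 3, w 4)` -/
def SRel (w : ℕ → V) : Prop :=
  (∃ i ∈ om, ∃ j ∈ om, w 2 = ZFSet.pair (nS 0) (ZFSet.pair i j) ∧
    vn (nn i) (w 0) ∈ vn (nn j) (w 0)) ∨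
  (∃ i ∈ om, ∃ j ∈ om, w 2 = ZFSet.pair (nS 1) (ZFSet.pair i j) ∧
    vn (nn i) (w 0) = vn (nn j) (w 0)) ∨
  (∃ i ∈ om, w 2 = ZFSet.pair (nS 2) i ∧ vn (nn i) (w 0) ∈ w 4) ∨
  (∃ d ∈ CD, w 2 = ZFSet.pair (nS 3) d ∧ ¬ w 0 ∈ app (w 1) d) ∨
  (∃ d ∈ CD, ∃ e ∈ CD, w 2 = ZFSet.pair (nS 4) (ZFSet.pair d e) ∧ w 0 ∈ app (w 1) d ∧
    w 0 ∈ app (w 1) e) ∨
  (∃ d ∈ CD, w 2 = ZFSet.pair (nS 5) d ∧
    ∃ a ∈ w 3, ZFSet.pair (fst (w 0)) (ZFSet.pair a (snd (w 0))) ∈ app (w 1) d)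

theorem dfb_SRel : Dfb ZFm (fun _ w => SRel w) := by
  refine Dfb.or ?_ (Dfb.or ?_ (Dfb.or ?_ (Dfb.or ?_ (Dfb.or ?_ ?_))))
  · refine (Dfb.bex (R := fun _ w => ∃ j ∈ om, w 3 = ZFSet.pair (nS 0) (ZFSet.pair (w 0) j) ∧
      vn (nn (w 0)) (w 1) ∈ vn (nn j) (w 1)) ktr_zfm Tm.om ?_).congr fun M k v hv => Iff.rfl
    refine (Dfb.bex (R := fun _ w => w 4 = ZFSet.pair (nS 0) (ZFSet.pair (w 1) (w 0)) ∧
      vn (nn (w 1)) (w 2) ∈ vn (nn (w 0)) (w 2)) ktr_zfm Tm.om ?_).congr fun M k v hv => Iff.rfl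
    exact (Dfb.isPair (Tm.var 4) (Tm.nS 0) (Tm.pair (Tm.var 1) (Tm.var 0))).and
      (Dfb.mem (Tm.vn (Tm.var 1) (Tm.var 2)) (Tm.vn (Tm.var 0) (Tm.var 2)))
  · refine (Dfb.bex (R := fun _ w => ∃ j ∈ om, w 3 = ZFSet.pair (nS 1) (ZFSet.pair (w 0) j) ∧
      vn (nn (w 0)) (w 1) = vn (nn j) (w 1)) ktr_zfm Tm.om ?_).congr fun M k v hv => Iff.rfl
    refine (Dfb.bex (R := fun _ w => w 4 = ZFSet.pair (nS 1) (ZFSet.pair (w 1) (w 0)) ∧
      vn (nn (w 1)) (w 2) = vn (nn (w 0)) (w 2)) ktr_zfm Tm.om ?_).congr fun M k v hv => Iff.rfl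
    exact (Dfb.isPair (Tm.var 4) (Tm.nS 1) (Tm.pair (Tm.var 1) (Tm.var 0))).and
      (Dfb.eq (Tm.vn (Tm.var 1) (Tm.var 2)) (Tm.vn (Tm.var 0) (Tm.var 2)))
  · refine (Dfb.bex (R := fun _ w => w 3 = ZFSet.pair (nS 2) (w 0) ∧
      vn (nn (w 0)) (w 1) ∈ w 5) ktr_zfm Tm.om ?_).congr fun M k v hv => Iff.rfl
    exact (Dfb.isPair (Tm.var 3) (Tm.nS 2) (Tm.var 0)).and
      (Dfb.mem (Tm.vn (Tm.var 0) (Tm.var 1)) (Tm.var 5))
  · refine (Dfb.bex (R := fun _ w => w 3 = ZFSet.pair (nS 3) (w 0) ∧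
      ¬ w 1 ∈ app (w 2) (w 0)) ktr_zfm Tm.CD ?_).congr fun M k v hv => Iff.rfl
    exact (Dfb.isPair (Tm.var 3) (Tm.nS 3) (Tm.var 0)).and
      (Dfb.mem (Tm.var 1) (Tm.app (Tm.var 2) (Tm.var 0))).not
  · refine (Dfb.bex (R := fun _ w => ∃ e ∈ CD, w 3 = ZFSet.pair (nS 4) (ZFSet.pair (w 0) e) ∧
      w 1 ∈ app (w 2) (w 0) ∧ w 1 ∈ app (w 2) e) ktr_zfm Tm.CD ?_).congr fun M k v hv => Iff.rfl
    refine (Dfb.bex (R := fun _ w => w 4 = ZFSet.pair (nS 4) (ZFSet.pair (w 1) (w 0)) ∧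
      w 2 ∈ app (w 3) (w 1) ∧ w 2 ∈ app (w 3) (w 0)) ktr_zfm Tm.CD ?_).congr
      fun M k v hv => Iff.rfl
    exact (Dfb.isPair (Tm.var 4) (Tm.nS 4) (Tm.pair (Tm.var 1) (Tm.var 0))).and
      ((Dfb.mem (Tm.var 2) (Tm.app (Tm.var 3) (Tm.var 1))).and
        (Dfb.mem (Tm.var 2) (Tm.app (Tm.var 3) (Tm.var 0))))
  · refine (Dfb.bex (R := fun _ w => w 3 = ZFSet.pair (nS 5) (w 0) ∧
      ∃ a ∈ w 4, ZFSet.pair (fst (w 1)) (ZFSet.pair a (snd (w 1))) ∈ app (w 2) (w 0))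
      ktr_zfm Tm.CD ?_).congr fun M k v hv => Iff.rfl
    refine (Dfb.isPair (Tm.var 3) (Tm.nS 5) (Tm.var 0)).and ?_
    refine (Dfb.bex (R := fun _ w => ZFSet.pair (fst (w 2)) (ZFSet.pair (w 0) (snd (w 2))) ∈
      app (w 3) (w 1)) ktr_zfm (Tm.var 4) ?_).congr fun M k v hv => Iff.rfl
    exact Dfb.mem (Tm.pair (Tm.fst (Tm.var 2)) (Tm.pair (Tm.var 0) (Tm.snd (Tm.var 2))))
      (Tm.app (Tm.var 3) (Tm.var 1))

/-- the immediate subformulas -/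
noncomputable def subc (c : V) : V :=
  CD.sep fun d => (c = ZFSet.pair (nS 3) d ∨ c = ZFSet.pair (nS 5) d) ∨
    ∃ e ∈ CD, c = ZFSet.pair (nS 4) (ZFSet.pair d e) ∨ c = ZFSet.pair (nS 4) (ZFSet.pair e d)

theorem tm_subc : Tm ZFm (fun _ v => subc (v 0)) := by
  refine (Tm.sep (R := fun _ v => (v 1 = ZFSet.pair (nS 3) (v 0) ∨ v 1 = ZFSet.pair (nS 5) (v 0)) ∨
    ∃ e ∈ CD, v 1 = ZFSet.pair (nS 4) (ZFSet.pair (v 0) e) ∨
      v 1 = ZFSet.pair (nS 4) (ZFSet.pair e (v 0))) ?_ Tm.CD).congr fun M k v hv => rfl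
  refine ((Dfb.isPair (Tm.var 1) (Tm.nS 3) (Tm.var 0)).or
    (Dfb.isPair (Tm.var 1) (Tm.nS 5) (Tm.var 0))).or ?_
  refine (Dfb.bex (R := fun _ v => v 2 = ZFSet.pair (nS 4) (ZFSet.pair (v 1) (v 0)) ∨
      v 2 = ZFSet.pair (nS 4) (ZFSet.pair (v 0) (v 1))) ktr_zfm Tm.CD ?_).congr
    fun M k v hv => Iff.rfl
  exact (Dfb.isPair (Tm.var 2) (Tm.nS 4) (Tm.pair (Tm.var 1) (Tm.var 0))).or
    (Dfb.isPair (Tm.var 2) (Tm.nS 4) (Tm.pair (Tm.var 0) (Tm.var 1)))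

theorem rank_subc {c d : V} (h : d ∈ subc c) : d.rank < c.rank := by
  unfold subc at h
  rw [ZFSet.mem_sep] at h
  rcases h with ⟨-, (rfl | rfl) | ⟨e, -, rfl | rfl⟩⟩
  · exact rank_lt_pair_right _ _
  · exact rank_lt_pair_right _ _
  · exact (rank_lt_pair_left _ _).trans (rank_lt_pair_right _ _)
  · exact (rank_lt_pair_right _ _).trans (rank_lt_pair_right _ _)

theorem cd_mem_CD (φ : Fml) : cd φ ∈ CD := mem_CD.2 ⟨φ, rfl⟩

theorem mem_subc_neg (φ : Fml) : cd φ ∈ subc (cd (.neg φ)) := by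
  unfold subc
  rw [ZFSet.mem_sep]
  exact ⟨cd_mem_CD φ, Or.inl (Or.inl rfl)⟩

theorem mem_subc_ex (φ : Fml) : cd φ ∈ subc (cd (.ex φ)) := by
  unfold subc
  rw [ZFSet.mem_sep]
  exact ⟨cd_mem_CD φ, Or.inl (Or.inr rfl)⟩

theorem mem_subc_left (φ ψ : Fml) : cd φ ∈ subc (cd (.and φ ψ)) := by
  unfold subc
  rw [ZFSet.mem_sep]
  exact ⟨cd_mem_CD φ, Or.inr ⟨_, cd_mem_CD ψ, Or.inl rfl⟩⟩

theorem mem_subc_right (φ ψ : Fml) : cd ψ ∈ subc (cd (.and φ ψ)) := by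
  unfold subc
  rw [ZFSet.mem_sep]
  exact ⟨cd_mem_CD ψ, Or.inr ⟨_, cd_mem_CD φ, Or.inr rfl⟩⟩

theorem pl_push (d a : V) (l : List V) :
    ZFSet.pair (fst (pl d l)) (ZFSet.pair a (snd (pl d l))) = pl d (a :: l) := by
  unfold pl
  rw [fst_pair, snd_pair]
  rfl

/-- the recursion equation of satisfaction -/
theorem sS_rec {x A c t r : V} (hr : ∀ d ∈ subc c, app r d = sS x A d) (w : ℕ → V)
    (h0 : w 0 = t) (h1 : w 1 = r) (h2 : w 2 = c) (h3 : w 3 = x) (h4 : w 4 = A) :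
    t ∈ sS x A c ↔ t ∈ PL x ∧ SRel w := by
  unfold SRel
  rw [h0, h1, h2, h3, h4]
  constructor
  · intro ht
    obtain ⟨φ, d, l, rfl, rfl, hd, hl, h⟩ := mem_sS.1 ht
    refine ⟨mem_PL.2 ⟨d, l, rfl, hd, hl⟩, ?_⟩
    cases φ with
    | mem i j =>
      left
      refine ⟨nS i, nS_mem_om i, nS j, nS_mem_om j, rfl, ?_⟩
      rw [nn_nS, nn_nS, vn_pl, vn_pl]
      exact h
    | eq i j =>
      right; left
      refine ⟨nS i, nS_mem_om i, nS j, nS_mem_om j, rfl, ?_⟩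
      rw [nn_nS, nn_nS, vn_pl, vn_pl]
      exact h
    | prd i =>
      right; right; left
      refine ⟨nS i, nS_mem_om i, rfl, ?_⟩
      rw [nn_nS, vn_pl]
      exact h
    | neg φ =>
      right; right; right; left
      refine ⟨cd φ, cd_mem_CD φ, rfl, ?_⟩
      rw [hr _ (mem_subc_neg φ), pl_mem_sS hd hl]
      exact h
    | and φ ψ =>
      right; right; right; right; left
      refine ⟨cd φ, cd_mem_CD φ, cd ψ, cd_mem_CD ψ, rfl, ?_⟩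
      rw [hr _ (mem_subc_left φ ψ), hr _ (mem_subc_right φ ψ), pl_mem_sS hd hl, pl_mem_sS hd hl]
      exact h
    | ex φ =>
      right; right; right; right; right
      refine ⟨cd φ, cd_mem_CD φ, rfl, ?_⟩
      obtain ⟨a, ha, h⟩ := h
      refine ⟨a, ha, ?_⟩
      rw [hr _ (mem_subc_ex φ), pl_push, pl_mem_sS hd, getD_cons]
      · exact h
      · intro p hp
        rcases List.mem_cons.1 hp with rfl | hp
        · exact ha
        · exact hl p hp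
  · rintro ⟨ht, h⟩
    obtain ⟨d, l, rfl, hd, hl⟩ := mem_PL.1 ht
    rcases h with ⟨i, hi, j, hj, hc, h⟩ | ⟨i, hi, j, hj, hc, h⟩ | ⟨i, hi, hc, h⟩ |
      ⟨a, ha, hc, h⟩ | ⟨a, ha, b, hb, hc, h, h'⟩ | ⟨a, ha, hc, b, hb, h⟩
    · obtain ⟨i, rfl⟩ := mem_om.1 hi
      obtain ⟨j, rfl⟩ := mem_om.1 hj
      have hc : c = cd (.mem i j) := hc
      rw [nn_nS, nn_nS, vn_pl, vn_pl] at h
      rw [hc, pl_mem_sS hd hl]
      exact h
    · obtain ⟨i, rfl⟩ := mem_om.1 hi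
      obtain ⟨j, rfl⟩ := mem_om.1 hj
      have hc : c = cd (.eq i j) := hc
      rw [nn_nS, nn_nS, vn_pl, vn_pl] at h
      rw [hc, pl_mem_sS hd hl]
      exact h
    · obtain ⟨i, rfl⟩ := mem_om.1 hi
      have hc : c = cd (.prd i) := hc
      rw [nn_nS, vn_pl] at h
      rw [hc, pl_mem_sS hd hl]
      exact h
    · obtain ⟨φ, rfl⟩ := mem_CD.1 ha
      have hc : c = cd (.neg φ) := hc
      subst hc
      rw [hr _ (mem_subc_neg φ), pl_mem_sS hd hl] at h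
      rw [pl_mem_sS hd hl]
      exact h
    · obtain ⟨φ, rfl⟩ := mem_CD.1 ha
      obtain ⟨ψ, rfl⟩ := mem_CD.1 hb
      have hc : c = cd (.and φ ψ) := hc
      subst hc
      rw [hr _ (mem_subc_left φ ψ), pl_mem_sS hd hl] at h
      rw [hr _ (mem_subc_right φ ψ), pl_mem_sS hd hl] at h'
      rw [pl_mem_sS hd hl]
      exact ⟨h, h'⟩
    · obtain ⟨φ, rfl⟩ := mem_CD.1 ha
      have hc : c = cd (.ex φ) := hc
      subst hc
      have hl' : ∀ p ∈ b :: l, p ∈ x := by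
        intro p hp
        rcases List.mem_cons.1 hp with rfl | hp
        · exact hb
        · exact hl p hp
      rw [hr _ (mem_subc_ex φ), pl_push, pl_mem_sS hd hl', getD_cons] at h
      rw [pl_mem_sS hd hl]
      exact ⟨b, hb, h⟩

theorem tm_sS0 : Tm ZFm (fun _ v => sS (v 1) (v 2) (v 0)) := by
  refine tm_recu (ext := fun _ v => subc (v 0))
    (Φ := fun M u => (PL (u 2)).sep fun t => SRel (cons t u))
    ZFSet.rank tm_subc ?_ ?_ ?_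
  · exact Tm.sep (R := fun _ w => SRel w) dfb_SRel (Tm.PL (Tm.var 2))
  · intro M k v hv y hy
    exact rank_subc hy
  · intro M k v hv
    simp only [cons_zero, cons_succ]
    ext t
    rw [ZFSet.mem_sep]
    exact sS_rec (fun d hd => app_resS hd) _ rfl rfl rfl rfl rfl

theorem Tm.sS (hf : Tm ZFm f) (hg : Tm ZFm g) (hh : Tm ZFm h) :
    Tm ZFm (fun M v => sS (f M v) (g M v) (h M v)) :=
  Tm.at3 (F := fun _ x y z => SF.sS x y z)
    (tm_sS0.rn fun i => if i = 0 then 2 else i - 1) hf hg hh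

/-! ### `Def` -/

theorem mem_Def' {x A y : V} : y ∈ Def x A ↔ ∃ c ∈ CD, ∃ s ∈ Lw x,
    y = x.sep fun z => ZFSet.pair z (ZFSet.pair z s) ∈ sS x A c := by
  rw [mem_Def]
  have key : ∀ (φ : Fml) (l : List V), (∀ p ∈ l, p ∈ x) →
      (x.sep fun z => SatP (· ∈ x) (· ∈ A) φ (cons z fun i => l.getD i z)) =
      x.sep fun z => ZFSet.pair z (ZFSet.pair z (lc l)) ∈ sS x A (cd φ) := by
    intro φ l hl
    ext z
    rw [ZFSet.mem_sep, ZFSet.mem_sep]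
    refine and_congr_right fun hz => ?_
    have h1 : ZFSet.pair z (ZFSet.pair z (lc l)) = pl z (z :: l) := rfl
    rw [h1, pl_mem_sS hz, getD_cons]
    intro p hp
    rcases List.mem_cons.1 hp with rfl | hp
    · exact hz
    · exact hl p hp
  constructor
  · rintro ⟨φ, l, hl, rfl⟩
    exact ⟨cd φ, cd_mem_CD φ, lc l, mem_Lw.2 ⟨l, hl, rfl⟩, key φ l hl⟩
  · rintro ⟨c, hc, s, hs, rfl⟩
    obtain ⟨φ, rfl⟩ := mem_CD.1 hc
    obtain ⟨l, hl, rfl⟩ := mem_Lw.1 hs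
    exact ⟨φ, l, hl, (key φ l hl).symm⟩

theorem Tm.Def (hf : Tm ZFm f) (hg : Tm ZFm g) : Tm ZFm (fun M v => Def (f M v) (g M v)) := by
  refine Tm.at2 (F := fun _ x y => SF.Def x y) ?_ hf hg
  refine (Tm.image (f := fun _ v => ZFSet.prod SF.CD (SF.Lw (v 0)))
    (g := fun _ u => (u 1).sep fun z =>
      ZFSet.pair z (ZFSet.pair z (SF.snd (u 0))) ∈ SF.sS (u 1) (u 2) (SF.fst (u 0))) ?_ ?_).congr ?_
  · exact Tm.prod Tm.CD (Tm.Lw (Tm.var 0))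
  · exact Tm.sep (R := fun _ w => ZFSet.pair (w 0) (ZFSet.pair (w 0) (SF.snd (w 1))) ∈
      SF.sS (w 2) (w 3) (SF.fst (w 1)))
      (Dfb.mem (Tm.pair (Tm.var 0) (Tm.pair (Tm.var 0) (Tm.snd (Tm.var 1))))
        (Tm.sS (Tm.var 2) (Tm.var 3) (Tm.fst (Tm.var 1)))) (Tm.var 1)
  · intro M k v hv
    ext y
    rw [mem_imS, mem_Def']
    constructor
    · rintro ⟨t, ht, rfl⟩
      obtain ⟨c, hc, s, hs, rfl⟩ := ZFSet.mem_prod.1 ht
      refine ⟨c, hc, s, hs, ?_⟩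
      simp only [cons_zero, cons_succ, fst_pair, snd_pair]
    · rintro ⟨c, hc, s, hs, rfl⟩
      refine ⟨ZFSet.pair c s, ZFSet.mem_prod.2 ⟨c, hc, s, hs, rfl⟩, ?_⟩
      simp only [cons_zero, cons_succ, fst_pair, snd_pair]

/-! ### the constructible hierarchy -/

/-- `Lh a A x`, the level `x` is an ordinal as a set -/
noncomputable def LhS (a A x : V) : V := sel (IsOrd x) (Lh a A x.rank) ∅

theorem LhS_ord (a A : V) (α : Ordinal.{0}) : LhS a A α.toZFSet = Lh a A α := by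
  unfold LhS
  rw [sel_pos ⟨α, rfl⟩, Ordinal.rank_toZFSet]

theorem tm_LhS0 : Tm ZFm (fun _ v => LhS (v 1) (v 2) (v 0)) := by
  refine tm_recu (ext := fun _ v => (v 0).sep fun _ => IsOrd (v 0))
    (Φ := fun M u => sel (IsOrd (u 1))
      (u 2 ∪ (⋃₀ (imS (u 1) fun y => Def (app (u 0) y) (u 3)) : ZFSet)) ∅)
    ZFSet.rank ?_ ?_ ?_ ?_
  · exact (Tm.sep (R := fun _ v => IsOrd (v 1)) (Dfb.isOrd (Tm.var 1)) (Tm.var 0)).congr
      fun M k v hv => rfl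
  · exact Tm.sel (Dfb.isOrd (Tm.var 1)) (Tm.union (Tm.var 2) (Tm.iUn
      (g := fun _ u => Def (app (u 1) (u 0)) (u 4)) (Tm.var 1)
        (Tm.Def (Tm.app (Tm.var 1) (Tm.var 0)) (Tm.var 4)))) Tm.empty
  · intro M k v hv y hy
    exact ZFSet.rank_lt_of_mem (ZFSet.mem_sep.1 hy).1
  · intro M k v hv
    simp only [cons_zero, cons_succ]
    by_cases h : IsOrd (v 0)
    · rw [sel_pos h]
      obtain ⟨α, hα⟩ := h
      rw [hα, LhS_ord]
      ext y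
      rw [mem_Lh, ZFSet.mem_union, ZFSet.mem_sUnion]
      refine or_congr_right ?_
      constructor
      · rintro ⟨β, hβ, hy⟩
        refine ⟨_, mem_imS.2 ⟨β.toZFSet, Ordinal.toZFSet_mem_toZFSet_iff.2 hβ, rfl⟩, ?_⟩
        rw [app_resS, LhS_ord]
        · exact hy
        · rw [ZFSet.mem_sep]
          exact ⟨Ordinal.toZFSet_mem_toZFSet_iff.2 hβ, α, rfl⟩
      · rintro ⟨_, hz, hy⟩
        obtain ⟨x, hx, rfl⟩ := mem_imS.1 hz
        obtain ⟨β, hβ, rfl⟩ := Ordinal.mem_toZFSet_iff.1 hx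
        refine ⟨β, hβ, ?_⟩
        rwa [app_resS, LhS_ord] at hy
        rw [ZFSet.mem_sep]
        exact ⟨hx, α, rfl⟩
    · rw [sel_neg h]
      unfold LhS
      rw [sel_neg h]

/-- the constructible hierarchy is uniformly definable -/
theorem Tm.LhS (hf : Tm ZFm f) (hg : Tm ZFm g) (hh : Tm ZFm h) :
    Tm ZFm (fun M v => LhS (f M v) (g M v) (h M v)) :=
  Tm.at3 (F := fun _ x y z => SF.LhS x y z)
    (tm_LhS0.rn fun i => if i = 0 then 2 else i - 1) hf hg hh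

/-- the constructible hierarchy of a model is computed correctly -/
theorem ZFm.mLh {M : V → Prop} (k : ZFm M) {a A : V} (ha : M a) (hA : M A) {α : Ordinal.{0}}
    (hα : M α.toZFSet) : M (Lh a A α) := by
  have h1 := tm_LhS0.1 M k (cons α.toZFSet (cons a fun _ => A)) (by
    intro i
    rcases i with _ | _ | i
    · exact hα
    · exact ha
    · exact hA)
  simp only [cons_zero, cons_succ] at h1
  rwa [LhS_ord] at h1

end SF
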