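import Pool.Agent.H7.SF.SatS

/-! Elementarity of a function between set structures, the axioms of ZF⁻ in a set, and fullness
are uniformly definable. -/

set_option linter.unusedVariables false

open Ordinal
open scoped ZFSet

namespace SF

variable {K : (V → Prop) → Prop} {R R' Q : (V → Prop) → (ℕ → V) → Prop}
  {f g h e : (V → Prop) → (ℕ → V) → V}

/-! ### image of a list and of an assignment under a function -/

theorem rank_snd_lt {s : V} (h : IsPr s) : (snd s).rank < s.rank := by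
  obtain ⟨x, y, rfl⟩ := h
  rw [snd_pair]
  exact rank_lt_pair_right x y

/-- the image of a list under the function `f` -/
noncomputable def mpS (f s : V) : V :=
  open Classical in
  if h : IsPr s then ZFSet.pair (app f (fst s)) (mpS f (snd s)) else ∅
termination_by s.rank
decreasing_by exact rank_snd_lt h

theorem mpS_empty (f : V) : mpS f ∅ = ∅ := by
  rw [mpS, dif_neg]
  rintro ⟨x, y, h⟩
  exact pair_ne_empty x y h.symm

theorem mpS_pair (f x y : V) : mpS f (ZFSet.pair x y) = ZFSet.pair (app f x) (mpS f y) := by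
  rw [mpS, dif_pos ⟨x, y, rfl⟩, fst_pair, snd_pair]

theorem mpS_lc (f : V) (l : List V) : mpS f (lc l) = lc (l.map (app f)) := by
  induction l with
  | nil => exact mpS_empty f
  | cons a l ih =>
    show mpS f (ZFSet.pair a (lc l)) = ZFSet.pair (app f a) (lc (l.map (app f)))
    rw [mpS_pair, ih]

theorem tm_mpS0 : Tm ZFm (fun _ v => mpS (v 1) (v 0)) := by
  refine tm_recu (ext := fun _ v => sel (IsPr (v 0)) {snd (v 0)} ∅)
    (Φ := fun M u => sel (IsPr (u 1)) (ZFSet.pair (app (u 2) (fst (u 1))) (app (u 0) (snd (u 1)))) ∅)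
    ZFSet.rank ?_ ?_ ?_ ?_
  · exact Tm.sel (Dfb.isPr (Tm.var 0)) (Tm.sing (Tm.snd (Tm.var 0))) Tm.empty
  · exact Tm.sel (Dfb.isPr (Tm.var 1)) (Tm.pair (Tm.app (Tm.var 2) (Tm.fst (Tm.var 1)))
      (Tm.app (Tm.var 0) (Tm.snd (Tm.var 1)))) Tm.empty
  · intro M k v hv y hy
    by_cases h : IsPr (v 0)
    · rw [sel_pos h, ZFSet.mem_singleton] at hy
      rw [hy]
      exact rank_snd_lt h
    · rw [sel_neg h] at hy
      exact absurd hy (ZFSet.notMem_empty _)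
  · intro M k v hv
    simp only [cons_zero, cons_succ]
    by_cases h : IsPr (v 0)
    · rw [sel_pos h, sel_pos h]
      obtain ⟨x, y, hxy⟩ := h
      rw [hxy, snd_pair, fst_pair, mpS_pair, app_resS (ZFSet.mem_singleton.2 rfl)]
    · rw [sel_neg h, mpS, dif_neg h]

theorem Tm.mpS (hf : Tm ZFm f) (hg : Tm ZFm g) : Tm ZFm (fun M v => mpS (f M v) (g M v)) :=
  Tm.at2 (F := fun _ x y => SF.mpS x y)
    (tm_mpS0.rn fun i => if i = 0 then 1 else 0) hf hg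

/-- the image of an assignment under the function `f` -/
noncomputable def mpl (f t : V) : V := ZFSet.pair (app f (fst t)) (mpS f (snd t))

theorem mpl_pl (f d : V) (l : List V) : mpl f (pl d l) = pl (app f d) (l.map (app f)) := by
  unfold mpl pl
  rw [fst_pair, snd_pair, mpS_lc]

theorem Tm.mpl (hf : Tm ZFm f) (hg : Tm ZFm g) : Tm ZFm (fun M v => mpl (f M v) (g M v)) :=
  Tm.pair (Tm.app hf (Tm.fst hg)) (Tm.mpS hf (Tm.snd hg))

/-! ### elementarity -/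

theorem sat_eq (x : V) (φ : Fml) (v : ℕ → V) :
    Sat (· ∈ x) φ v ↔ SatP (· ∈ x) (· ∈ (∅ : V)) φ v := by
  unfold Sat
  have e : (fun z : V => z ∈ (∅ : V)) = fun _ => False := by
    funext z
    exact eq_false (ZFSet.notMem_empty z)
  rw [e]

/-- satisfaction of a formula in a set structure, internally -/
theorem sat_iff_sS {x d : V} {l : List V} {φ : Fml} (hd : d ∈ x) (hl : ∀ p ∈ l, p ∈ x) :
    Sat (· ∈ x) φ (fun i => l.getD i d) ↔ pl d l ∈ sS x ∅ (cd φ) := by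
  rw [pl_mem_sS hd hl, sat_eq]

/-- the assignment `v` cut off at the bound of the formula -/
theorem sat_cut {x : V} {φ : Fml} {v : ℕ → V} (n : ℕ) (hn : φ.bd ≤ n) (d : V) :
    Sat (· ∈ x) φ v ↔ Sat (· ∈ x) φ (fun i => ((List.range n).map v).getD i d) := by
  refine satP_congr _ _ _ _ _ fun i hi => ?_
  rw [List.getD_eq_getElem _ _ (by simp; omega)]
  simp

theorem getD_map_app (f d : V) (l : List V) (i : ℕ) :
    (l.map (app f)).getD i (app f d) = app f (l.getD i d) := by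
  rw [List.getD_eq_getElem?_getD, List.getD_eq_getElem?_getD, List.getElem?_map]
  cases l[i]? <;> rfl

theorem isElem_iff {N' N f : V} : IsElem N' N f ↔ ZFSet.IsFunc N' N f ∧
    ∀ c ∈ CD, ∀ t ∈ PL N', t ∈ sS N' ∅ c ↔ mpl f t ∈ sS N ∅ c := by
  constructor
  · rintro ⟨h1, h2⟩
    refine ⟨h1, ?_⟩
    intro c hc t ht
    obtain ⟨φ, rfl⟩ := mem_CD.1 hc
    obtain ⟨d, l, rfl, hd, hl⟩ := mem_PL.1 ht
    have h3 : ∀ p ∈ l.map (app f), p ∈ N := by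
      intro p hp
      obtain ⟨q, hq, rfl⟩ := List.mem_map.1 hp
      exact app_mem h1 (hl q hq)
    rw [mpl_pl, ← sat_iff_sS hd hl, ← sat_iff_sS (app_mem h1 hd) h3, h2]
    · have e : (fun i => app f (l.getD i d)) = fun i => (l.map (app f)).getD i (app f d) := by
        funext i
        exact (getD_map_app f d l i).symm
      rw [e]
    · intro i
      rw [List.getD_eq_getElem?_getD]
      cases h : l[i]? with
      | none => exact hd
      | some a => exact hl a (List.mem_of_getElem? h)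
  · rintro ⟨h1, h2⟩
    refine ⟨h1, ?_⟩
    intro φ v hv
    have hl : ∀ p ∈ (List.range φ.bd).map v, p ∈ N' := by
      intro p hp
      obtain ⟨i, -, rfl⟩ := List.mem_map.1 hp
      exact hv i
    have h3 : ∀ p ∈ ((List.range φ.bd).map v).map (app f), p ∈ N := by
      intro p hp
      obtain ⟨q, hq, rfl⟩ := List.mem_map.1 hp
      exact app_mem h1 (hl q hq)
    rw [sat_cut φ.bd le_rfl (v 0), sat_cut (x := N) φ.bd le_rfl (app f (v 0)),
      sat_iff_sS (hv 0) hl, h2 _ (cd_mem_CD φ) _ (mem_PL.2 ⟨_, _, rfl, hv 0, hl⟩), mpl_pl,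
      ← sat_iff_sS (app_mem h1 (hv 0)) h3, List.map_map]
    rfl

theorem Dfb.isElem (hf : Tm ZFm f) (hg : Tm ZFm g) (hh : Tm ZFm h) :
    Dfb ZFm (fun M v => IsElem (f M v) (g M v) (h M v)) := by
  refine Dfb.at3 (P := fun _ x y z => IsElem x y z) ?_ hf hg hh
  refine Dfb.congr (R := fun _ v => ZFSet.IsFunc (v 0) (v 1) (v 2) ∧
    ∀ c ∈ CD, ∀ t ∈ PL (v 0), (t ∈ sS (v 0) ∅ c ↔ mpl (v 2) t ∈ sS (v 1) ∅ c)) ?_
    fun M k v hv => isElem_iff.symm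
  refine (Dfb.isFunc (Tm.var 0) (Tm.var 1) (Tm.var 2)).and ?_
  refine (Dfb.ball (R := fun _ v => ∀ t ∈ PL (v 1), (t ∈ sS (v 1) ∅ (v 0) ↔
    mpl (v 3) t ∈ sS (v 2) ∅ (v 0))) ktr_zfm Tm.CD ?_).congr fun M k v hv => Iff.rfl
  refine (Dfb.ball (R := fun _ v => (v 0 ∈ sS (v 2) ∅ (v 1) ↔
    mpl (v 4) (v 0) ∈ sS (v 3) ∅ (v 1))) ktr_zfm (Tm.PL (Tm.var 1)) ?_).congr
    fun M k v hv => Iff.rfl
  exact (Dfb.mem (Tm.var 0) (Tm.sS (Tm.var 2) Tm.empty (Tm.var 1))).iff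
    (Dfb.mem (Tm.mpl (Tm.var 4) (Tm.var 0)) (Tm.sS (Tm.var 3) Tm.empty (Tm.var 1)))

/-! ### finite partial elementary maps -/

/-- `f` restricted to the finite list of arguments is partially elementary -/
theorem pel_iff {N' N f : V} {X : V} (hX : X ⊆ N') (hf : ∀ x ∈ X, app f x ∈ N) :
    (∀ (φ : Fml) (v : ℕ → V), (∀ i, v i ∈ X) →
      (Sat (· ∈ N') φ v ↔ Sat (· ∈ N) φ fun i => app f (v i))) ↔
    ∀ c ∈ CD, ∀ t ∈ PL X, t ∈ sS N' ∅ c ↔ mpl f t ∈ sS N ∅ c := by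
  constructor
  · intro h2 c hc t ht
    obtain ⟨φ, rfl⟩ := mem_CD.1 hc
    obtain ⟨d, l, rfl, hd, hl⟩ := mem_PL.1 ht
    have h3 : ∀ p ∈ l.map (app f), p ∈ N := by
      intro p hp
      obtain ⟨q, hq, rfl⟩ := List.mem_map.1 hp
      exact hf q (hl q hq)
    rw [mpl_pl, ← sat_iff_sS (hX hd) (fun p hp => hX (hl p hp)), ← sat_iff_sS (hf d hd) h3, h2]
    · have e : (fun i => app f (l.getD i d)) = fun i => (l.map (app f)).getD i (app f d) := by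
        funext i
        exact (getD_map_app f d l i).symm
      rw [e]
    · intro i
      rw [List.getD_eq_getElem?_getD]
      cases h : l[i]? with
      | none => exact hd
      | some a => exact hl a (List.mem_of_getElem? h)
  · intro h2 φ v hv
    have hl : ∀ p ∈ (List.range φ.bd).map v, p ∈ X := by
      intro p hp
      obtain ⟨i, -, rfl⟩ := List.mem_map.1 hp
      exact hv i
    have h3 : ∀ p ∈ ((List.range φ.bd).map v).map (app f), p ∈ N := by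
      intro p hp
      obtain ⟨q, hq, rfl⟩ := List.mem_map.1 hp
      exact hf q (hl q hq)
    rw [sat_cut φ.bd le_rfl (v 0), sat_cut (x := N) φ.bd le_rfl (app f (v 0)),
      sat_iff_sS (hX (hv 0)) (fun p hp => hX (hl p hp)), h2 _ (cd_mem_CD φ) _
        (mem_PL.2 ⟨_, _, rfl, hv 0, hl⟩), mpl_pl,
      ← sat_iff_sS (hf _ (hv 0)) h3, List.map_map]
    rfl

/-! ### the axioms of `ZFm` and `ZFCm` in a set -/

/-- put `z` in front of the list of the assignment -/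
noncomputable def psh (z t : V) : V := ZFSet.pair (fst t) (ZFSet.pair z (snd t))

theorem psh_pl (z d : V) (l : List V) : psh z (pl d l) = pl d (z :: l) := pl_push d z l

theorem Tm.psh (hf : Tm ZFm f) (hg : Tm ZFm g) : Tm ZFm (fun M v => psh (f M v) (g M v)) :=
  Tm.pair (Tm.fst hg) (Tm.pair hf (Tm.snd hg))

theorem zfm_iff {N : V} : ZFm (· ∈ N) ↔ N.IsTransitive ∧ (∀ x ∈ N, ∀ y ∈ N, ({x, y} : V) ∈ N) ∧
    (∀ x ∈ N, (⋃₀ x : ZFSet) ∈ N) ∧ om ∈ N ∧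
    (∀ c ∈ CD, ∀ t ∈ PL N, ∀ a ∈ N, (a.sep fun z => psh z t ∈ sS N ∅ c) ∈ N) ∧
    (∀ c ∈ CD, ∀ t ∈ PL N, ∀ a ∈ N, (∀ x ∈ a, ∃ y ∈ N, psh y (psh x t) ∈ sS N ∅ c) →
      ∃ b ∈ N, ∀ x ∈ a, ∃ y ∈ b, psh y (psh x t) ∈ sS N ∅ c) := by
  have key1 : ∀ (tr : N.IsTransitive) (φ : Fml) (d : V) (l : List V) (a : V), d ∈ N →
      (∀ p ∈ l, p ∈ N) → a ∈ N → (a.sep fun z => psh z (pl d l) ∈ sS N ∅ (cd φ)) =
      a.sep fun z => Sat (· ∈ N) φ (cons z fun i => l.getD i d) := by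
    intro tr φ d l a hd hl ha
    ext z
    rw [ZFSet.mem_sep, ZFSet.mem_sep]
    refine and_congr_right fun hz => ?_
    rw [psh_pl, ← sat_iff_sS hd, getD_cons]
    intro p hp
    rcases List.mem_cons.1 hp with rfl | hp
    · exact tr a ha hz
    · exact hl p hp
  have key2 : ∀ (φ : Fml) (d : V) (l : List V) (x y : V), d ∈ N →
      (∀ p ∈ l, p ∈ N) → x ∈ N → y ∈ N → (psh y (psh x (pl d l)) ∈ sS N ∅ (cd φ) ↔
      Sat (· ∈ N) φ (cons y (cons x fun i => l.getD i d))) := by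
    intro φ d l x y hd hl hx hy
    rw [psh_pl, psh_pl, ← sat_iff_sS hd, getD_cons, getD_cons]
    intro p hp
    rcases List.mem_cons.1 hp with rfl | hp
    · exact hy
    · rcases List.mem_cons.1 hp with rfl | hp
      · exact hx
      · exact hl p hp
  have key3 : ∀ (l : List V) (d : V), d ∈ N → (∀ p ∈ l, p ∈ N) → ∀ i, l.getD i d ∈ N := by
    intro l d hd hl i
    rw [List.getD_eq_getElem?_getD]
    cases h : l[i]? with
    | none => exact hd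
    | some a => exact hl a (List.mem_of_getElem? h)
  constructor
  · intro k
    refine ⟨fun x hx y hy => k.trans x hx y hy, fun x hx y hy => k.pair x y hx hy,
      fun x hx => k.union x hx, k.inf, ?_, ?_⟩
    · intro c hc t ht a ha
      obtain ⟨φ, rfl⟩ := mem_CD.1 hc
      obtain ⟨d, l, rfl, hd, hl⟩ := mem_PL.1 ht
      rw [key1 (fun x hx y hy => k.trans x hx y hy) φ d l a hd hl ha]
      exact k.sep φ _ a (key3 l d hd hl) ha
    · intro c hc t ht a ha h1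
      obtain ⟨φ, rfl⟩ := mem_CD.1 hc
      obtain ⟨d, l, rfl, hd, hl⟩ := mem_PL.1 ht
      obtain ⟨b, hb, h2⟩ := k.coll φ _ a (key3 l d hd hl) ha (by
        intro x hx
        obtain ⟨y, hy, h3⟩ := h1 x hx
        exact ⟨y, hy, (key2 φ d l x y hd hl (k.trans a ha x hx) hy).1 h3⟩)
      refine ⟨b, hb, fun x hx => ?_⟩
      obtain ⟨y, hy, h3⟩ := h2 x hx
      exact ⟨y, hy, (key2 φ d l x y hd hl (k.trans a ha x hx) (k.trans b hb y hy)).2 h3⟩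
  · rintro ⟨tr, h2, h3, h4, h5, h6⟩
    have cut : ∀ (φ : Fml) (v : ℕ → V) (n : ℕ), φ.bd ≤ n → ∀ z x : V,
        (Sat (· ∈ N) φ (cons z (cons x v)) ↔
          Sat (· ∈ N) φ (cons z (cons x fun i => ((List.range n).map v).getD i (v 0)))) := by
      intro φ v n hn z x
      refine satP_congr _ _ _ _ _ fun i hi => ?_
      rcases i with _ | _ | i
      · rfl
      · rfl
      · show v i = _
        rw [cons_succ, cons_succ, List.getD_eq_getElem _ _ (by simp; omega)]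
        simp
    have cut1 : ∀ (φ : Fml) (v : ℕ → V) (n : ℕ), φ.bd ≤ n → ∀ z : V,
        (Sat (· ∈ N) φ (cons z v) ↔
          Sat (· ∈ N) φ (cons z fun i => ((List.range n).map v).getD i (v 0))) := by
      intro φ v n hn z
      refine satP_congr _ _ _ _ _ fun i hi => ?_
      rcases i with _ | i
      · rfl
      · show v i = _
        rw [cons_succ, List.getD_eq_getElem _ _ (by simp; omega)]
        simp
    refine ⟨fun x hx y hy => tr x hx hy, fun x y hx hy => h2 x hx y hy, fun x hx => h3 x hx, h4,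
      ?_, ?_⟩
    · intro φ v a hv ha
      have hl : ∀ p ∈ (List.range φ.bd).map v, p ∈ N := by
        intro p hp
        obtain ⟨i, -, rfl⟩ := List.mem_map.1 hp
        exact hv i
      have h7 := h5 _ (cd_mem_CD φ) _ (mem_PL.2 ⟨_, _, rfl, hv 0, hl⟩) a ha
      rw [key1 tr φ _ _ a (hv 0) hl ha] at h7
      convert h7 using 1
      ext z
      rw [ZFSet.mem_sep, ZFSet.mem_sep]
      exact and_congr_right fun _ => cut1 φ v _ le_rfl z
    · intro φ v a hv ha h1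
      have hl : ∀ p ∈ (List.range φ.bd).map v, p ∈ N := by
        intro p hp
        obtain ⟨i, -, rfl⟩ := List.mem_map.1 hp
        exact hv i
      obtain ⟨b, hb, h8⟩ := h6 _ (cd_mem_CD φ) _ (mem_PL.2 ⟨_, _, rfl, hv 0, hl⟩) a ha (by
        intro x hx
        obtain ⟨y, hy, h9⟩ := h1 x hx
        refine ⟨y, hy, (key2 φ _ _ x y (hv 0) hl (tr a ha hx) hy).2 ?_⟩
        exact (cut φ v _ le_rfl y x).1 h9)
      refine ⟨b, hb, fun x hx => ?_⟩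
      obtain ⟨y, hy, h9⟩ := h8 x hx
      refine ⟨y, hy, (cut φ v _ le_rfl y x).2 ?_⟩
      exact (key2 φ _ _ x y (hv 0) hl (tr a ha hx) (tr b hb hy)).1 h9

theorem Dfb.zfm (hf : Tm ZFm f) : Dfb ZFm (fun M v => ZFm (· ∈ f M v)) := by
  refine Dfb.at1 (P := fun _ x => ZFm (· ∈ x)) ?_ hf
  refine Dfb.congr (R := fun _ v => (v 0).IsTransitive ∧
    (∀ x ∈ v 0, ∀ y ∈ v 0, ({x, y} : V) ∈ v 0) ∧
    (∀ x ∈ v 0, (⋃₀ x : ZFSet) ∈ v 0) ∧ om ∈ v 0 ∧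
    (∀ c ∈ CD, ∀ t ∈ PL (v 0), ∀ a ∈ v 0, (a.sep fun z => psh z t ∈ sS (v 0) ∅ c) ∈ v 0) ∧
    (∀ c ∈ CD, ∀ t ∈ PL (v 0), ∀ a ∈ v 0, (∀ x ∈ a, ∃ y ∈ v 0,
      psh y (psh x t) ∈ sS (v 0) ∅ c) →
      ∃ b ∈ v 0, ∀ x ∈ a, ∃ y ∈ b, psh y (psh x t) ∈ sS (v 0) ∅ c)) ?_
    fun M k v hv => zfm_iff.symm
  refine (Dfb.isTrans (Tm.var 0)).and (Dfb.and ?_ (Dfb.and ?_
    ((Dfb.mem Tm.om (Tm.var 0)).and (Dfb.and ?_ ?_))))
  · refine (Dfb.ball (R := fun _ v => ∀ y ∈ v 1, ({v 0, y} : V) ∈ v 1) ktr_zfm (Tm.var 0)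
      ?_).congr fun M k v hv => Iff.rfl
    exact (Dfb.ball (R := fun _ v => ({v 1, v 0} : V) ∈ v 2) ktr_zfm (Tm.var 1)
      (Dfb.mem (Tm.upair (Tm.var 1) (Tm.var 0)) (Tm.var 2))).congr fun M k v hv => Iff.rfl
  · exact (Dfb.ball (R := fun _ v => (⋃₀ (v 0) : ZFSet) ∈ v 1) ktr_zfm (Tm.var 0)
      (Dfb.mem (Tm.sUnion (Tm.var 0)) (Tm.var 1))).congr fun M k v hv => Iff.rfl
  · refine (Dfb.ball (R := fun _ v => ∀ t ∈ PL (v 1), ∀ a ∈ v 1,
      (a.sep fun z => psh z t ∈ sS (v 1) ∅ (v 0)) ∈ v 1) ktr_zfm Tm.CD ?_).congr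
      fun M k v hv => Iff.rfl
    refine (Dfb.ball (R := fun _ v => ∀ a ∈ v 2,
      (a.sep fun z => psh z (v 0) ∈ sS (v 2) ∅ (v 1)) ∈ v 2) ktr_zfm (Tm.PL (Tm.var 1)) ?_).congr
      fun M k v hv => Iff.rfl
    refine (Dfb.ball (R := fun _ v => ((v 0).sep fun z => psh z (v 1) ∈ sS (v 3) ∅ (v 2)) ∈ v 3)
      ktr_zfm (Tm.var 2) ?_).congr fun M k v hv => Iff.rfl
    refine Dfb.mem ?_ (Tm.var 3)
    exact Tm.sep (R := fun _ w => psh (w 0) (w 2) ∈ sS (w 4) ∅ (w 3))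
      (Dfb.mem (Tm.psh (Tm.var 0) (Tm.var 2)) (Tm.sS (Tm.var 4) Tm.empty (Tm.var 3))) (Tm.var 0)
  · refine (Dfb.ball (R := fun _ v => ∀ t ∈ PL (v 1), ∀ a ∈ v 1, (∀ x ∈ a, ∃ y ∈ v 1,
      psh y (psh x t) ∈ sS (v 1) ∅ (v 0)) →
      ∃ b ∈ v 1, ∀ x ∈ a, ∃ y ∈ b, psh y (psh x t) ∈ sS (v 1) ∅ (v 0)) ktr_zfm Tm.CD ?_).congr
      fun M k v hv => Iff.rfl
    refine (Dfb.ball (R := fun _ v => ∀ a ∈ v 2, (∀ x ∈ a, ∃ y ∈ v 2,
      psh y (psh x (v 0)) ∈ sS (v 2) ∅ (v 1)) →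
      ∃ b ∈ v 2, ∀ x ∈ a, ∃ y ∈ b, psh y (psh x (v 0)) ∈ sS (v 2) ∅ (v 1)) ktr_zfm
      (Tm.PL (Tm.var 1)) ?_).congr fun M k v hv => Iff.rfl
    refine (Dfb.ball (R := fun _ v => (∀ x ∈ v 0, ∃ y ∈ v 3,
      psh y (psh x (v 1)) ∈ sS (v 3) ∅ (v 2)) →
      ∃ b ∈ v 3, ∀ x ∈ v 0, ∃ y ∈ b, psh y (psh x (v 1)) ∈ sS (v 3) ∅ (v 2)) ktr_zfm
      (Tm.var 2) ?_).congr fun M k v hv => Iff.rfl
    refine Dfb.imp ?_ ?_
    · refine (Dfb.ball (R := fun _ v => ∃ y ∈ v 4,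
        psh y (psh (v 0) (v 2)) ∈ sS (v 4) ∅ (v 3)) ktr_zfm (Tm.var 0) ?_).congr
        fun M k v hv => Iff.rfl
      refine (Dfb.bex (R := fun _ v => psh (v 0) (psh (v 1) (v 3)) ∈ sS (v 5) ∅ (v 4)) ktr_zfm
        (Tm.var 4) ?_).congr fun M k v hv => Iff.rfl
      exact Dfb.mem (Tm.psh (Tm.var 0) (Tm.psh (Tm.var 1) (Tm.var 3)))
        (Tm.sS (Tm.var 5) Tm.empty (Tm.var 4))
    · refine (Dfb.bex (R := fun _ v => ∀ x ∈ v 1, ∃ y ∈ v 0,
        psh y (psh x (v 2)) ∈ sS (v 4) ∅ (v 3)) ktr_zfm (Tm.var 3) ?_).congr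
        fun M k v hv => Iff.rfl
      refine (Dfb.ball (R := fun _ v => ∃ y ∈ v 1,
        psh y (psh (v 0) (v 3)) ∈ sS (v 5) ∅ (v 4)) ktr_zfm (Tm.var 1) ?_).congr
        fun M k v hv => Iff.rfl
      refine (Dfb.bex (R := fun _ v => psh (v 0) (psh (v 1) (v 4)) ∈ sS (v 6) ∅ (v 5)) ktr_zfm
        (Tm.var 1) ?_).congr fun M k v hv => Iff.rfl
      exact Dfb.mem (Tm.psh (Tm.var 0) (Tm.psh (Tm.var 1) (Tm.var 4)))
        (Tm.sS (Tm.var 6) Tm.empty (Tm.var 5))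

theorem zfcm_iff {N : V} : ZFCm (· ∈ N) ↔ ZFm (· ∈ N) ∧
    ∀ x ∈ N, ∃ f ∈ N, ∃ a ∈ N, IsOrd a ∧ Onto f a x := by
  constructor
  · intro k
    refine ⟨k.toZFm, fun x hx => ?_⟩
    obtain ⟨α, f, hf, h⟩ := k.wo x hx
    refine ⟨f, hf, α.toZFSet, ?_, ⟨α, rfl⟩, h⟩
    have h1 := (Tm.dm (Tm.var 0)).1 (· ∈ N) k.toZFm (fun _ => f) (fun _ => hf)
    have h2 : dm f = α.toZFSet := by
      ext z
      rw [mem_dm]
      constructor
      · rintro ⟨y, hy⟩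
        exact (ZFSet.pair_mem_prod.1 (h.1.1 hy)).1
      · intro hz
        exact ⟨_, pair_app_mem h.1 hz⟩
    rwa [← h2]
  · rintro ⟨k, h1⟩
    refine ⟨k, fun x hx => ?_⟩
    obtain ⟨f, hf, a, -, ⟨α, rfl⟩, h⟩ := h1 x hx
    exact ⟨α, f, hf, h⟩

theorem Dfb.zfcm (hf : Tm ZFm f) : Dfb ZFm (fun M v => ZFCm (· ∈ f M v)) := by
  refine Dfb.at1 (P := fun _ x => ZFCm (· ∈ x)) ?_ hf
  refine Dfb.congr (R := fun _ v => ZFm (· ∈ v 0) ∧
    ∀ x ∈ v 0, ∃ f ∈ v 0, ∃ a ∈ v 0, IsOrd a ∧ Onto f a x) ?_ fun M k v hv => zfcm_iff.symm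
  refine (Dfb.zfm (Tm.var 0)).and ?_
  refine (Dfb.ball (R := fun _ v => ∃ f ∈ v 1, ∃ a ∈ v 1, IsOrd a ∧ Onto f a (v 0)) ktr_zfm
    (Tm.var 0) ?_).congr fun M k v hv => Iff.rfl
  refine (Dfb.bex (R := fun _ v => ∃ a ∈ v 2, IsOrd a ∧ Onto (v 0) a (v 1)) ktr_zfm
    (Tm.var 1) ?_).congr fun M k v hv => Iff.rfl
  refine (Dfb.bex (R := fun _ v => IsOrd (v 0) ∧ Onto (v 1) (v 0) (v 2)) ktr_zfm
    (Tm.var 2) ?_).congr fun M k v hv => Iff.rfl
  exact (Dfb.isOrd (Tm.var 0)).and (Dfb.onto (Tm.var 1) (Tm.var 0) (Tm.var 2))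

/-! ### fullness -/

/-- `L_γ(N)` as a function of the ordinal `γ` as a set -/
noncomputable def LNS (N γ : V) : V := LhS (insert N N) ∅ γ

theorem LNS_ord (N : V) (γ : Ordinal.{0}) : LNS N γ.toZFSet = LN N γ := LhS_ord _ _ _

theorem Tm.LNS (hf : Tm ZFm f) (hg : Tm ZFm g) : Tm ZFm (fun M v => LNS (f M v) (g M v)) :=
  Tm.LhS (Tm.ins hf hf) Tm.empty hg

/-- `L_α[A]` as a function of the ordinal `α` as a set -/
noncomputable def LAS (A α : V) : V := LhS ∅ A α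

theorem LAS_ord (A : V) (α : Ordinal.{0}) : LAS A α.toZFSet = LA A α := LhS_ord _ _ _

theorem Tm.LAS (hf : Tm ZFm f) (hg : Tm ZFm g) : Tm ZFm (fun M v => LAS (f M v) (g M v)) :=
  Tm.LhS Tm.empty hf hg

theorem Dfb.full (hf : Tm ZFm f) : Dfb ZFm (fun M v => Full M (f M v)) := by
  refine Dfb.at1 (P := fun M x => Full M x) ?_ hf
  refine Dfb.congr (R := fun M v => (v 0).IsTransitive ∧ om ∈ v 0 ∧ ∃ γ, M γ ∧ (IsOrd γ ∧
    ZFCm (· ∈ LNS (v 0) γ) ∧ ∀ x ∈ v 0, ∀ f ∈ LNS (v 0) γ, ZFSet.IsFunc x (v 0) f →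
      ((v 0).sep fun y => ∃ u ∈ x, ZFSet.pair u y ∈ f) ∈ v 0)) ?_ ?_
  · refine (Dfb.isTrans (Tm.var 0)).and ((Dfb.mem Tm.om (Tm.var 0)).and ?_)
    refine (Dfb.ex (R := fun M v => IsOrd (v 0) ∧
      ZFCm (· ∈ LNS (v 1) (v 0)) ∧ ∀ x ∈ v 1, ∀ f ∈ LNS (v 1) (v 0), ZFSet.IsFunc x (v 1) f →
      ((v 1).sep fun y => ∃ u ∈ x, ZFSet.pair u y ∈ f) ∈ v 1) ?_).congr fun M k v hv => Iff.rfl
    refine (Dfb.isOrd (Tm.var 0)).and ((Dfb.zfcm (Tm.LNS (Tm.var 1) (Tm.var 0))).and ?_)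
    refine (Dfb.ball (R := fun M v => ∀ f ∈ LNS (v 2) (v 1), ZFSet.IsFunc (v 0) (v 2) f →
      ((v 2).sep fun y => ∃ u ∈ v 0, ZFSet.pair u y ∈ f) ∈ v 2) ktr_zfm (Tm.var 1) ?_).congr
      fun M k v hv => Iff.rfl
    refine (Dfb.ball (R := fun M v => ZFSet.IsFunc (v 1) (v 3) (v 0) →
      ((v 3).sep fun y => ∃ u ∈ v 1, ZFSet.pair u y ∈ v 0) ∈ v 3) ktr_zfm
      (Tm.LNS (Tm.var 2) (Tm.var 1)) ?_).congr fun M k v hv => Iff.rfl
    refine (Dfb.isFunc (Tm.var 1) (Tm.var 3) (Tm.var 0)).imp (Dfb.mem ?_ (Tm.var 3))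
    refine Tm.sep (R := fun _ w => ∃ u ∈ w 2, ZFSet.pair u (w 0) ∈ w 1) ?_ (Tm.var 3)
    exact (Dfb.bex (R := fun _ w => ZFSet.pair (w 0) (w 1) ∈ w 2) ktr_zfm (Tm.var 2)
      (Dfb.pairMem (Tm.var 0) (Tm.var 1) (Tm.var 2))).congr fun M k v hv => Iff.rfl
  · intro M k v hv
    unfold Full
    refine and_congr_right fun _ => and_congr_right fun _ => ?_
    constructor
    · rintro ⟨_, hγ, ⟨γ, rfl⟩, h1, h2⟩
      rw [LNS_ord] at h1 h2
      exact ⟨γ, hγ, h1, h2⟩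
    · rintro ⟨γ, hγ, h1, h2⟩
      refine ⟨_, hγ, ⟨γ, rfl⟩, ?_⟩
      rw [LNS_ord]
      exact ⟨h1, h2⟩

end SF
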