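import Pool.Agent.H7.SF.Iter

/-! Finite sequences as sets, codes of formulas. -/

set_option linter.unusedVariables false

open Ordinal
open scoped ZFSet

namespace SF

variable {K : (V → Prop) → Prop} {R R' : (V → Prop) → (ℕ → V) → Prop}
  {f g h : (V → Prop) → (ℕ → V) → V}

theorem pair_ne_empty (x y : V) : ZFSet.pair x y ≠ ∅ := by
  intro h
  have h1 : ({x} : V) ∈ ZFSet.pair x y := by simp [ZFSet.pair]
  rw [h] at h1
  exact ZFSet.notMem_empty _ h1

theorem fst_empty : fst (∅ : V) = ∅ :=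
  fst_eq_of_not fun ⟨x, y, h⟩ => pair_ne_empty x y h.symm

theorem snd_empty : snd (∅ : V) = ∅ :=
  snd_eq_of_not fun ⟨x, y, h⟩ => pair_ne_empty x y h.symm

/-! ### lists -/

/-- the code of a list -/
noncomputable def lc : List V → V
  | [] => ∅
  | a :: l => ZFSet.pair a (lc l)

theorem lc_inj {l l' : List V} (h : lc l = lc l') : l = l' := by
  induction l generalizing l' with
  | nil =>
    cases l' with
    | nil => rfl
    | cons a l' => exact absurd h.symm (pair_ne_empty _ _)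
  | cons a l ih =>
    cases l' with
    | nil => exact absurd h (pair_ne_empty _ _)
    | cons b l' =>
      obtain ⟨h1, h2⟩ := ZFSet.pair_inj.1 h
      rw [h1, ih h2]

theorem lc_eq_empty {l : List V} : lc l = ∅ ↔ l = [] := by
  cases l with
  | nil => exact ⟨fun _ => rfl, fun _ => rfl⟩
  | cons a l => exact ⟨fun h => absurd h (pair_ne_empty _ _), fun h => by cases h⟩

/-- the codes of the lists of length `n` of elements of `x` -/
noncomputable def ls (x : V) : ℕ → V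
  | 0 => {∅}
  | n + 1 => ZFSet.prod x (ls x n)

/-- the set of the codes of the lists of elements of `x` -/
noncomputable def Lw (x : V) : V := ⋃₀ (imS om fun y => ls x (nn y) : ZFSet)

theorem mem_ls {x s : V} {n : ℕ} :
    s ∈ ls x n ↔ ∃ l : List V, l.length = n ∧ (∀ p ∈ l, p ∈ x) ∧ s = lc l := by
  induction n generalizing s with
  | zero =>
    unfold ls
    rw [ZFSet.mem_singleton]
    constructor
    · rintro rfl
      exact ⟨[], rfl, by simp, rfl⟩
    · rintro ⟨l, h1, -, rfl⟩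
      rw [List.length_eq_zero_iff.1 h1]
      rfl
  | succ n ih =>
    unfold ls
    rw [ZFSet.mem_prod]
    constructor
    · rintro ⟨a, ha, t, ht, rfl⟩
      obtain ⟨l, h1, h2, rfl⟩ := ih.1 ht
      refine ⟨a :: l, by simp [h1], ?_, rfl⟩
      intro p hp
      rcases List.mem_cons.1 hp with rfl | hp
      · exact ha
      · exact h2 p hp
    · rintro ⟨l, h1, h2, rfl⟩
      cases l with
      | nil => simp at h1
      | cons a l =>
        refine ⟨a, h2 a (by simp), lc l, ih.2 ⟨l, by simpa using h1, ?_, rfl⟩, rfl⟩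
        intro p hp
        exact h2 p (by simp [hp])

theorem mem_Lw {x s : V} : s ∈ Lw x ↔ ∃ l : List V, (∀ p ∈ l, p ∈ x) ∧ s = lc l := by
  unfold Lw
  rw [ZFSet.mem_sUnion]
  constructor
  · rintro ⟨_, hz, hs⟩
    obtain ⟨y, -, rfl⟩ := mem_imS.1 hz
    obtain ⟨l, -, h1, h2⟩ := mem_ls.1 hs
    exact ⟨l, h1, h2⟩
  · rintro ⟨l, h1, h2⟩
    exact ⟨_, mem_imS.2 ⟨nS l.length, nS_mem_om _, rfl⟩, by
      rw [nn_nS]
      exact mem_ls.2 ⟨l, rfl, h1, h2⟩⟩

theorem it_ls (M : V → Prop) (v : ℕ → V) (n : ℕ) :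
    it (fun _ u => ZFSet.prod (u 1) (u 0)) (fun _ _ => {∅}) M v n = ls (v 0) n := by
  induction n with
  | zero => rfl
  | succ n ih =>
    simp only [it, ls, cons_zero, cons_succ]
    rw [ih]

theorem Tm.ls (hf : Tm ZFm f) (hg : Tm ZFm g) : Tm ZFm (fun M v => ls (f M v) (nn (g M v))) := by
  refine Tm.at2 (F := fun _ x y => SF.ls x (nn y)) ?_ hf hg
  refine (Tm.it (f := fun _ u => ZFSet.prod (u 1) (u 0)) (g := fun _ _ => {∅})
    (Tm.prod (Tm.var 1) (Tm.var 0)) (Tm.sing Tm.empty) (Tm.var 1)).congr fun M k v hv => ?_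
  exact it_ls M v _

theorem Tm.Lw (hf : Tm ZFm f) : Tm ZFm (fun M v => Lw (f M v)) := by
  refine Tm.at1 (F := fun _ x => SF.Lw x) ?_ hf
  exact (Tm.iUn (g := fun _ u => SF.ls (u 1) (nn (u 0))) Tm.om
    (Tm.ls (Tm.var 1) (Tm.var 0))).congr fun M k v hv => rfl

/-- remove `n` elements -/
noncomputable def dr (n : ℕ) (s : V) : V := snd^[n] s

theorem dr_succ (n : ℕ) (s : V) : dr (n + 1) s = snd (dr n s) :=
  Function.iterate_succ_apply' _ _ _

theorem dr_lc (n : ℕ) (l : List V) : dr n (lc l) = lc (l.drop n) := by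
  induction n generalizing l with
  | zero => rfl
  | succ n ih =>
    show snd^[n + 1] (lc l) = _
    rw [Function.iterate_succ_apply]
    cases l with
    | nil =>
      show snd^[n] (snd ∅) = _
      rw [snd_empty]
      have := ih []
      rw [List.drop_nil] at this ⊢
      exact this
    | cons a l =>
      show snd^[n] (snd (ZFSet.pair a (lc l))) = _
      rw [snd_pair]
      exact ih l

theorem Tm.dr (hf : Tm ZFm f) (hg : Tm ZFm g) : Tm ZFm (fun M v => dr (nn (f M v)) (g M v)) := by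
  refine Tm.at2 (F := fun _ x y => SF.dr (nn x) y) ?_ hf hg
  refine (Tm.it (f := fun _ u => SF.snd (u 0)) (g := fun _ u => u 1)
    (Tm.snd (Tm.var 0)) (Tm.var 1) (Tm.var 0)).congr fun M k v hv => ?_
  generalize nn (v 0) = n
  induction n with
  | zero => rfl
  | succ n ih =>
    rw [dr_succ, ← ih]
    rfl

/-- the code of the assignment with default value `d` and list `l` -/
noncomputable def pl (d : V) (l : List V) : V := ZFSet.pair d (lc l)

/-- the value of the `i`-th variable -/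
noncomputable def vn (i : ℕ) (t : V) : V :=
  sel (dr i (snd t) = ∅) (fst t) (fst (dr i (snd t)))

theorem vn_pl (i : ℕ) (d : V) (l : List V) : vn i (pl d l) = l.getD i d := by
  unfold vn pl
  rw [snd_pair, fst_pair, dr_lc]
  by_cases h : i < l.length
  · rw [sel_neg, List.getD_eq_getElem _ _ h, List.drop_eq_getElem_cons h]
    · exact fst_pair _ _
    · rw [lc_eq_empty, List.drop_eq_nil_iff]
      omega
  · rw [sel_pos, List.getD_eq_default _ _ (by omega)]
    rw [lc_eq_empty, List.drop_eq_nil_iff]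
    omega

theorem Tm.vn (hf : Tm ZFm f) (hg : Tm ZFm g) : Tm ZFm (fun M v => vn (nn (f M v)) (g M v)) :=
  Tm.sel (Dfb.eq (Tm.dr hf (Tm.snd hg)) Tm.empty) (Tm.fst hg) (Tm.fst (Tm.dr hf (Tm.snd hg)))

theorem getD_cons (z : V) (l : List V) (d : V) :
    (fun i => (z :: l).getD i d) = cons z fun i => l.getD i d := by
  funext i
  cases i <;> rfl

/-! ### codes of formulas -/

/-- the code of a formula -/
noncomputable def cd : Fml → V
  | .mem i j => ZFSet.pair (nS 0) (ZFSet.pair (nS i) (nS j))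
  | .eq i j => ZFSet.pair (nS 1) (ZFSet.pair (nS i) (nS j))
  | .prd i => ZFSet.pair (nS 2) (nS i)
  | .neg φ => ZFSet.pair (nS 3) (cd φ)
  | .and φ ψ => ZFSet.pair (nS 4) (ZFSet.pair (cd φ) (cd ψ))
  | .ex φ => ZFSet.pair (nS 5) (cd φ)

theorem cd_inj {φ ψ : Fml} (h : cd φ = cd ψ) : φ = ψ := by
  induction φ generalizing ψ with
  | mem i j =>
    cases ψ <;> simp only [cd, ZFSet.pair_inj, nS_inj] at h <;> simp_all
  | eq i j =>
    cases ψ <;> simp only [cd, ZFSet.pair_inj, nS_inj] at h <;> simp_all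
  | prd i =>
    cases ψ <;> simp only [cd, ZFSet.pair_inj, nS_inj] at h <;> simp_all
  | neg φ ih =>
    cases ψ <;> simp only [cd, ZFSet.pair_inj, nS_inj] at h <;> try omega
    rw [ih h.2]
  | and φ φ' ih1 ih2 =>
    cases ψ <;> simp only [cd, ZFSet.pair_inj, nS_inj] at h <;> try omega
    rw [ih1 h.2.1, ih2 h.2.2]
  | ex φ ih =>
    cases ψ <;> simp only [cd, ZFSet.pair_inj, nS_inj] at h <;> try omega
    rw [ih h.2]

/-- atomic codes -/
noncomputable def CD0 : V :=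
  ZFSet.prod {nS 0} (ZFSet.prod om om) ∪
    (ZFSet.prod {nS 1} (ZFSet.prod om om) ∪ ZFSet.prod {nS 2} om)

/-- one step -/
noncomputable def CDs (x : V) : V :=
  x ∪ (ZFSet.prod {nS 3} x ∪ (ZFSet.prod {nS 4} (ZFSet.prod x x) ∪ ZFSet.prod {nS 5} x))

/-- the set of the codes of all formulas -/
noncomputable def CD : V :=
  itU (fun _ u => CDs (u 0)) (fun _ _ => CD0) (fun _ => True) fun _ => ∅

theorem tm_CD0 : Tm ZFm (fun _ _ => CD0) :=
  Tm.union (Tm.prod (Tm.sing (Tm.nS 0)) (Tm.prod Tm.om Tm.om))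
    (Tm.union (Tm.prod (Tm.sing (Tm.nS 1)) (Tm.prod Tm.om Tm.om))
      (Tm.prod (Tm.sing (Tm.nS 2)) Tm.om))

theorem tm_CDs : Tm ZFm (fun _ u => CDs (u 0)) :=
  Tm.union (Tm.var 0) (Tm.union (Tm.prod (Tm.sing (Tm.nS 3)) (Tm.var 0))
    (Tm.union (Tm.prod (Tm.sing (Tm.nS 4)) (Tm.prod (Tm.var 0) (Tm.var 0)))
      (Tm.prod (Tm.sing (Tm.nS 5)) (Tm.var 0))))

theorem it_CD (M : V → Prop) (v : ℕ → V) (n : ℕ) :
    it (fun _ u => CDs (u 0)) (fun _ _ => CD0) M v n = CDs^[n] CD0 := by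
  induction n with
  | zero => rfl
  | succ n ih =>
    rw [Function.iterate_succ_apply', ← ih]
    rfl

theorem Tm.CD : Tm ZFm (fun _ _ => CD) := by
  refine (Tm.itU tm_CDs tm_CD0).congr fun M k v hv => ?_
  ext y
  unfold SF.CD
  rw [mem_itU, mem_itU]
  simp only [it_CD]

theorem mem_CD_iff {c : V} : c ∈ CD ↔ ∃ n, c ∈ CDs^[n] CD0 := by
  unfold CD
  rw [mem_itU]
  simp only [it_CD]

theorem CDs_mono (n m : ℕ) (h : n ≤ m) : CDs^[n] CD0 ⊆ CDs^[m] CD0 := by
  induction m, h using Nat.le_induction with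
  | base => exact fun _ h => h
  | succ m hm ih =>
    intro x hx
    rw [Function.iterate_succ_apply']
    unfold CDs
    exact ZFSet.mem_union.2 (Or.inl (ih hx))

theorem mem_CD {c : V} : c ∈ CD ↔ ∃ φ, c = cd φ := by
  rw [mem_CD_iff]
  constructor
  · rintro ⟨n, hn⟩
    induction n generalizing c with
    | zero =>
      have hn : c ∈ CD0 := hn
      unfold CD0 at hn
      simp only [ZFSet.mem_union, ZFSet.mem_prod, ZFSet.mem_singleton, mem_om] at hn
      rcases hn with ⟨_, rfl, _, ⟨_, ⟨i, rfl⟩, _, ⟨j, rfl⟩, rfl⟩, rfl⟩ |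
        ⟨_, rfl, _, ⟨_, ⟨i, rfl⟩, _, ⟨j, rfl⟩, rfl⟩, rfl⟩ | ⟨_, rfl, _, ⟨i, rfl⟩, rfl⟩
      · exact ⟨.mem i j, rfl⟩
      · exact ⟨.eq i j, rfl⟩
      · exact ⟨.prd i, rfl⟩
    | succ n ih =>
      rw [Function.iterate_succ_apply'] at hn
      unfold CDs at hn
      simp only [ZFSet.mem_union, ZFSet.mem_prod, ZFSet.mem_singleton] at hn
      rcases hn with hn | ⟨_, rfl, a, ha, rfl⟩ | ⟨_, rfl, _, ⟨a, ha, b, hb, rfl⟩, rfl⟩ |
        ⟨_, rfl, a, ha, rfl⟩
      · exact ih hn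
      · obtain ⟨φ, rfl⟩ := ih ha
        exact ⟨.neg φ, rfl⟩
      · obtain ⟨φ, rfl⟩ := ih ha
        obtain ⟨ψ, rfl⟩ := ih hb
        exact ⟨.and φ ψ, rfl⟩
      · obtain ⟨φ, rfl⟩ := ih ha
        exact ⟨.ex φ, rfl⟩
  · rintro ⟨φ, rfl⟩
    induction φ with
    | mem i j =>
      refine ⟨0, ?_⟩
      show _ ∈ CD0
      unfold CD0 cd
      simp only [ZFSet.mem_union, ZFSet.mem_prod, ZFSet.mem_singleton, mem_om]
      exact Or.inl ⟨_, rfl, _, ⟨_, ⟨i, rfl⟩, _, ⟨j, rfl⟩, rfl⟩, rfl⟩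
    | eq i j =>
      refine ⟨0, ?_⟩
      show _ ∈ CD0
      unfold CD0 cd
      simp only [ZFSet.mem_union, ZFSet.mem_prod, ZFSet.mem_singleton, mem_om]
      exact Or.inr (Or.inl ⟨_, rfl, _, ⟨_, ⟨i, rfl⟩, _, ⟨j, rfl⟩, rfl⟩, rfl⟩)
    | prd i =>
      refine ⟨0, ?_⟩
      show _ ∈ CD0
      unfold CD0 cd
      simp only [ZFSet.mem_union, ZFSet.mem_prod, ZFSet.mem_singleton, mem_om]
      exact Or.inr (Or.inr ⟨_, rfl, _, ⟨i, rfl⟩, rfl⟩)
    | neg φ ih =>
      obtain ⟨n, hn⟩ := ih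
      refine ⟨n + 1, ?_⟩
      rw [Function.iterate_succ_apply']
      unfold CDs cd
      simp only [ZFSet.mem_union, ZFSet.mem_prod, ZFSet.mem_singleton]
      exact Or.inr (Or.inl ⟨_, rfl, _, hn, rfl⟩)
    | and φ ψ ih1 ih2 =>
      obtain ⟨n, hn⟩ := ih1
      obtain ⟨m, hm⟩ := ih2
      refine ⟨max n m + 1, ?_⟩
      rw [Function.iterate_succ_apply']
      unfold CDs cd
      simp only [ZFSet.mem_union, ZFSet.mem_prod, ZFSet.mem_singleton]
      exact Or.inr (Or.inr (Or.inl ⟨_, rfl, _, ⟨_, CDs_mono _ _ (le_max_left _ _) hn, _,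
        CDs_mono _ _ (le_max_right _ _) hm, rfl⟩, rfl⟩))
    | ex φ ih =>
      obtain ⟨n, hn⟩ := ih
      refine ⟨n + 1, ?_⟩
      rw [Function.iterate_succ_apply']
      unfold CDs cd
      simp only [ZFSet.mem_union, ZFSet.mem_prod, ZFSet.mem_singleton]
      exact Or.inr (Or.inr (Or.inr ⟨_, rfl, _, hn, rfl⟩))

end SF
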