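import Pool.Agent.H7.SF.ElemS

/-! Partially elementary relations between set structures are uniformly definable. -/

set_option linter.unusedVariables false

open Ordinal
open scoped ZFSet

namespace SF

variable {f g h e : (V → Prop) → (ℕ → V) → V}

/-- The relation `s` (a set of pairs) is partially elementary between the set structures `N'` and
`N`. -/
def PE (N' N s : V) : Prop :=
  ∀ (φ : Fml) (v : ℕ → V × V), (∀ i, ZFSet.pair (v i).1 (v i).2 ∈ s) →
    (Sat (· ∈ N') φ (fun i => (v i).1) ↔ Sat (· ∈ N) φ fun i => (v i).2)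

theorem app_fstS {s q : V} (hq : q ∈ s) : app (resS s fst) q = fst q := app_resS hq

theorem map_resS {s : V} {F : V → V} {l : List V} (hl : ∀ p ∈ l, p ∈ s) :
    l.map (app (resS s F)) = l.map F := by
  refine List.map_congr_left fun p hp => app_resS (hl p hp)

theorem pe_iff {N' N s : V} : (s ⊆ ZFSet.prod N' N ∧ PE N' N s) ↔ s ⊆ ZFSet.prod N' N ∧
    ∀ c ∈ CD, ∀ t ∈ PL s, mpl (resS s fst) t ∈ sS N' ∅ c ↔ mpl (resS s snd) t ∈ sS N ∅ c := by
  refine and_congr_right fun hs => ?_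
  have h1 : ∀ q ∈ s, fst q ∈ N' ∧ snd q ∈ N ∧ ZFSet.pair (fst q) (snd q) = q := by
    intro q hq
    obtain ⟨x, hx, y, hy, rfl⟩ := ZFSet.mem_prod.1 (hs hq)
    rw [fst_pair, snd_pair]
    exact ⟨hx, hy, rfl⟩
  have hg : ∀ (F : V → V) (q : V) (l : List V) (i : ℕ), (l.map F).getD i (F q) =
      F (l.getD i q) := by
    intro F q l i
    rw [List.getD_eq_getElem?_getD, List.getD_eq_getElem?_getD, List.getElem?_map]
    cases l[i]? <;> rfl
  constructor
  · intro h c hc t ht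
    obtain ⟨φ, rfl⟩ := mem_CD.1 hc
    obtain ⟨q, l, rfl, hq, hl⟩ := mem_PL.1 ht
    have hl' : ∀ i, l.getD i q ∈ s := by
      intro i
      rw [List.getD_eq_getElem?_getD]
      cases h : l[i]? with
      | none => exact hq
      | some a => exact hl a (List.mem_of_getElem? h)
    rw [mpl_pl, mpl_pl, map_resS hl, map_resS hl, app_resS hq, app_resS hq,
      ← sat_iff_sS (h1 q hq).1, ← sat_iff_sS (h1 q hq).2.1]
    · have h2 := h φ (fun i => (fst (l.getD i q), snd (l.getD i q))) (by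
        intro i
        show ZFSet.pair _ _ ∈ s
        rw [(h1 _ (hl' i)).2.2]
        exact hl' i)
      simp only [hg]
      exact h2
    · intro p hp
      obtain ⟨r, hr, rfl⟩ := List.mem_map.1 hp
      exact (h1 r (hl r hr)).2.1
    · intro p hp
      obtain ⟨r, hr, rfl⟩ := List.mem_map.1 hp
      exact (h1 r (hl r hr)).1
  · intro h φ v hv
    have hl : ∀ p ∈ (List.range φ.bd).map (fun i => ZFSet.pair (v i).1 (v i).2), p ∈ s := by
      intro p hp
      obtain ⟨i, -, rfl⟩ := List.mem_map.1 hp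
      exact hv i
    have h2 := h _ (cd_mem_CD φ) _ (mem_PL.2 ⟨_, _, rfl, hv 0, hl⟩)
    rw [mpl_pl, mpl_pl, map_resS hl, map_resS hl, app_resS (hv 0), app_resS (hv 0),
      ← sat_iff_sS (h1 _ (hv 0)).1, ← sat_iff_sS (h1 _ (hv 0)).2.1] at h2
    · simp only [List.map_map, fst_pair, snd_pair] at h2
      rw [sat_cut φ.bd le_rfl ((v 0).1), sat_cut (x := N) φ.bd le_rfl ((v 0).2)]
      have e1 : (fst ∘ fun i => ZFSet.pair (v i).1 (v i).2) = fun i => (v i).1 := by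
        funext i; exact fst_pair _ _
      have e2 : (snd ∘ fun i => ZFSet.pair (v i).1 (v i).2) = fun i => (v i).2 := by
        funext i; exact snd_pair _ _
      rw [e1, e2] at h2
      exact h2
    · intro p hp
      obtain ⟨r, hr, rfl⟩ := List.mem_map.1 hp
      exact (h1 r (hl r hr)).2.1
    · intro p hp
      obtain ⟨r, hr, rfl⟩ := List.mem_map.1 hp
      exact (h1 r (hl r hr)).1

/-- partial elementarity is uniformly definable -/
theorem Dfb.pe (hf : Tm ZFm f) (hg : Tm ZFm g) (hh : Tm ZFm h) :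
    Dfb ZFm (fun M v => h M v ⊆ ZFSet.prod (f M v) (g M v) ∧ PE (f M v) (g M v) (h M v)) := by
  refine Dfb.at3 (P := fun _ x y z => z ⊆ ZFSet.prod x y ∧ PE x y z) ?_ hf hg hh
  refine Dfb.congr (R := fun _ v => v 2 ⊆ ZFSet.prod (v 0) (v 1) ∧
    ∀ c ∈ CD, ∀ t ∈ PL (v 2), (mpl (resS (v 2) fst) t ∈ sS (v 0) ∅ c ↔
      mpl (resS (v 2) snd) t ∈ sS (v 1) ∅ c)) ?_ fun M k v hv => pe_iff.symm
  refine (Dfb.subset (Tm.var 2) (Tm.prod (Tm.var 0) (Tm.var 1))).and ?_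
  refine (Dfb.ball (R := fun _ v => ∀ t ∈ PL (v 3), (mpl (resS (v 3) fst) t ∈ sS (v 1) ∅ (v 0) ↔
      mpl (resS (v 3) snd) t ∈ sS (v 2) ∅ (v 0))) ktr_zfm Tm.CD ?_).congr fun M k v hv => Iff.rfl
  refine (Dfb.ball (R := fun _ v => (mpl (resS (v 4) fst) (v 0) ∈ sS (v 2) ∅ (v 1) ↔
      mpl (resS (v 4) snd) (v 0) ∈ sS (v 3) ∅ (v 1))) ktr_zfm (Tm.PL (Tm.var 3)) ?_).congr
    fun M k v hv => Iff.rfl
  have h1 : Tm ZFm (fun _ v => resS (v 4) fst) :=
    Tm.resS (g := fun _ u => fst (u 0)) (Tm.var 4) (Tm.fst (Tm.var 0))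
  have h2 : Tm ZFm (fun _ v => resS (v 4) snd) :=
    Tm.resS (g := fun _ u => snd (u 0)) (Tm.var 4) (Tm.snd (Tm.var 0))
  exact (Dfb.mem (Tm.mpl h1 (Tm.var 0)) (Tm.sS (Tm.var 2) Tm.empty (Tm.var 1))).iff
    (Dfb.mem (Tm.mpl h2 (Tm.var 0)) (Tm.sS (Tm.var 3) Tm.empty (Tm.var 1)))

/-! ### levels of the constructible hierarchy -/

theorem ZFm.mle' {M : V → Prop} (k : ZFm M) {α β : Ordinal.{0}} (h : M β.toZFSet) (hαβ : α ≤ β) :
    M α.toZFSet := by
  rcases hαβ.lt_or_eq with h1 | rfl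
  · exact k.trans _ h _ (Ordinal.toZFSet_mem_toZFSet_iff.2 h1)
  · exact h

/-- the argument is a level of the hierarchy over `∅` -/
theorem Dfb.exLA (hf : Tm ZFm f) (hg : Tm ZFm g) :
    Dfb ZFm (fun M v => ∃ τ : Ordinal.{0}, M τ.toZFSet ∧ f M v = LA (g M v) τ) := by
  refine Dfb.at2 (P := fun M x y => ∃ τ : Ordinal.{0}, M τ.toZFSet ∧ x = LA y τ) ?_ hf hg
  refine (Dfb.ex (R := fun M v => IsOrd (v 0) ∧ v 1 = LAS (v 2) (v 0))
    ((Dfb.isOrd (Tm.var 0)).and (Dfb.eq (Tm.var 1) (Tm.LAS (Tm.var 2) (Tm.var 0))))).congr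
    fun M k v hv => ?_
  constructor
  · rintro ⟨_, hτ, ⟨τ, rfl⟩, h⟩
    refine ⟨τ, hτ, ?_⟩
    rw [← LAS_ord]
    exact h
  · rintro ⟨τ, hτ, h⟩
    refine ⟨_, hτ, ⟨τ, rfl⟩, ?_⟩
    show v 0 = LAS (v 1) τ.toZFSet
    rw [LAS_ord]
    exact h

/-- the height of a level is determined by the level -/
theorem exLA_iff {M : V → Prop} (k : ZFm M) {N A : V} (hN : M N) :
    (∃ τ : Ordinal.{0}, N = LA A τ) ↔ ∃ τ : Ordinal.{0}, M τ.toZFSet ∧ N = LA A τ := by
  constructor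
  · rintro ⟨τ, h⟩
    refine ⟨τ, ?_, h⟩
    have h1 : M N.rank.toZFSet := (Tm.rkS (Tm.var 0)).1 M k (fun _ => N) fun _ => hN
    refine k.mle' h1 ?_
    have h2 : τ.toZFSet ⊆ N := by
      rw [h]
      exact (ord_sub_Lh (fun x hx => absurd hx (ZFSet.notMem_empty x)) τ).1
    have h3 := ZFSet.rank_mono h2
    rwa [Ordinal.rank_toZFSet] at h3
  · rintro ⟨τ, -, h⟩
    exact ⟨τ, h⟩

end SF
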