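import Pool.Agent.H7.SF.ReflS
import Pool.Agent.H68.SF.LT

/-! `T_REFL`: reflection for one model and a hierarchy defined by a formula. -/

set_option linter.unusedVariables false

open Ordinal Order
open scoped ZFSet

namespace SF

/-- the set of the model which is defined by the formula `η` (`∅` if there is none) -/
noncomputable def xtS (η : Fml) (M : V → Prop) (w : ℕ → V) : V :=
  open Classical in
  if h : ∃ y, M y ∧ ∀ x, M x → (x ∈ y ↔ Sat M η (cons x w)) then h.choose else ∅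

theorem xtS_eq {η : Fml} {M : V → Prop} (k : ZFm M) {w : ℕ → V} {y : V} (hy : M y)
    (h : ∀ x, M x → (x ∈ y ↔ Sat M η (cons x w))) : xtS η M w = y := by
  have h0 : ∃ y, M y ∧ ∀ x, M x → (x ∈ y ↔ Sat M η (cons x w)) := ⟨y, hy, h⟩
  unfold xtS
  rw [dif_pos h0]
  obtain ⟨h1, h2⟩ := h0.choose_spec
  ext x
  constructor
  · intro hx
    have hxM := k.trans _ h1 x hx
    exact (h x hxM).2 ((h2 x hxM).1 hx)
  · intro hx
    have hxM := k.trans _ hy x hx
    exact (h2 x hxM).2 ((h x hxM).1 hx)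

theorem tm_xtS (η : Fml) : Tm ZFm (xtS η) := by
  have hη : Dfb ZFm (fun M v => Sat M η v) := ⟨η, fun _ _ _ _ => Iff.rfl⟩
  have h1 : Dfb ZFm (fun M v => ∀ x, M x → (x ∈ v 0 ↔ Sat M η (cons x fun i => v (i + 1)))) := by
    have h2 : Dfb ZFm (fun M v => Sat M η (cons (v 0) fun i => v (i + 2))) :=
      hη.push (Tm.var 0) fun i => i + 2
    exact (Dfb.all (R := fun M v => v 0 ∈ v 1 ↔ Sat M η (cons (v 0) fun i => v (i + 2)))
      ((Dfb.mem (Tm.var 0) (Tm.var 1)).iff h2)).congr fun M k v hv => Iff.rfl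
  refine Tm.of_graph (R := fun M v => (∀ x, M x → (x ∈ v 0 ↔ Sat M η (cons x fun i => v (i + 1)))) ∨
    ((¬ ∃ y, M y ∧ ∀ x, M x → (x ∈ y ↔ Sat M η (cons x fun i => v (i + 1)))) ∧ v 0 = ∅)) ?_ ?_ ?_
  · intro M k v hv
    by_cases h : ∃ y, M y ∧ ∀ x, M x → (x ∈ y ↔ Sat M η (cons x v))
    · obtain ⟨y, hy, h⟩ := h
      rw [xtS_eq k hy h]
      exact hy
    · unfold xtS
      rw [dif_neg h]
      exact k.mempty
  · refine h1.or (Dfb.and (Dfb.not ?_) (Dfb.eq (Tm.var 0) Tm.empty))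
    refine (Dfb.ex (R := fun M v => ∀ x, M x → (x ∈ v 0 ↔ Sat M η (cons x fun i => v (i + 2))))
      ?_).congr fun M k v hv => Iff.rfl
    exact (h1.rn (shr 1)).congr fun M k v hv => Iff.rfl
  · intro M k v hv x hx
    simp only [cons_zero, cons_succ]
    constructor
    · rintro (h | ⟨h, rfl⟩)
      · exact (xtS_eq k hx h).symm
      · unfold xtS
        rw [dif_neg h]
    · intro h
      by_cases h2 : ∃ y, M y ∧ ∀ x, M x → (x ∈ y ↔ Sat M η (cons x v))
      · obtain ⟨y, hy, h3⟩ := h2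
        rw [xtS_eq k hy h3] at h
        left
        rw [h]
        exact h3
      · right
        refine ⟨h2, ?_⟩
        rw [h]
        unfold xtS
        rw [dif_neg h2]

theorem pf_REFL : T_REFL := by
  intro M k H p η φ hp hHM hmono hcont hdef α hα
  obtain ⟨β, h1, h2, -, h3⟩ := reflect (tm_xtS η) k (p := fun _ => p) (fun _ => hp) (H := H)
    (fun γ hγ => xtS_eq k (hHM γ hγ) fun x hx => hdef γ hγ x hx)
    (fun γ δ h _ => hmono γ δ h) (fun γ _ hγ x hx => by
      obtain ⟨δ, h4, h5⟩ := hcont γ hγ x hx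
      exact ⟨δ, h4, h5⟩) [φ] α hα
  exact ⟨β, h1, h2, fun v hv => (h3 φ (by simp) v hv).symm⟩

end SF
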